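import Mathlib

set_option autoImplicit false

namespace Pool.Agent.R284.AS

open NormedSpace Filter Topology

section
variable {E : Type*} [NormedAddCommGroup E] [NormedSpace ℝ E] [CompleteSpace E]

lemma exp_bound (A : E →L[ℝ] E) : ‖exp A - 1 - A‖ ≤ ‖A‖ ^ 2 * Real.exp ‖A‖ := by
  have h := NormedSpace.exp_series_hasSum_exp' (𝕂 := ℝ) A
  have h2 : HasSum (fun n : ℕ => (((n + 2).factorial : ℝ))⁻¹ • A ^ (n + 2)) (exp A - 1 - A) := by
    rw [hasSum_nat_add_iff (f := fun n : ℕ => ((n.factorial : ℝ))⁻¹ • A ^ n) 2]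
    have e : exp A - 1 - A + ∑ i ∈ Finset.range 2, ((i.factorial : ℝ))⁻¹ • A ^ i = exp A := by
      simp [Finset.sum_range_succ]
    rw [e]
    exact h
  have hr : HasSum (fun n : ℕ => ‖A‖ ^ 2 * (‖A‖ ^ n / n.factorial)) (‖A‖ ^ 2 * Real.exp ‖A‖) := by
    rw [Real.exp_eq_exp_ℝ]
    exact (NormedSpace.expSeries_div_hasSum_exp ‖A‖).mul_left _
  rw [← h2.tsum_eq]
  refine tsum_of_norm_bounded hr ?_
  intro n
  rw [norm_smul]
  have h1 : ‖A ^ (n + 2)‖ ≤ ‖A‖ ^ (n + 2) := norm_pow_le' A (by omega)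
  have h3 : ‖(((n + 2).factorial : ℝ))⁻¹‖ ≤ ((n.factorial : ℝ))⁻¹ := by
    rw [norm_inv, Real.norm_natCast]
    apply inv_anti₀
    · exact_mod_cast Nat.factorial_pos n
    · exact_mod_cast Nat.factorial_le (by omega)
  calc ‖(((n + 2).factorial : ℝ))⁻¹‖ * ‖A ^ (n + 2)‖
      ≤ ((n.factorial : ℝ))⁻¹ * ‖A‖ ^ (n + 2) := by
        apply mul_le_mul h3 h1 (norm_nonneg _)
        positivity
    _ = ‖A‖ ^ 2 * (‖A‖ ^ n / n.factorial) := by
        rw [pow_add, div_eq_mul_inv]; ring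

/-- the isometry group generated by a skew operator -/
lemma exists_group (G : E →L[ℝ] E) (C : ℝ) (hC : 0 ≤ C)
    (hG : ∀ (f : E) (a : ℝ), ‖f + a • G f‖ ≤ (1 + C * a ^ 2) * ‖f‖) :
    ∃ (U : ℝ → E →L[ℝ] E) (C₀ : ℝ), 0 ≤ C₀ ∧ (∀ x, U 0 x = x) ∧
      (∀ s t x, U (s + t) x = U s (U t x)) ∧ (∀ t x, ‖U t x‖ = ‖x‖) ∧
      ∀ a : ℝ, 0 ≤ a → a ≤ 1 → ∀ f, ‖U a f - f - a • G f‖ ≤ C₀ * a ^ 2 * ‖f‖ := by
  let _ : NormedAlgebra ℚ (E →L[ℝ] E) := NormedAlgebra.restrictScalars ℚ ℝ _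
  set C₀ : ℝ := ‖G‖ ^ 2 * Real.exp ‖G‖ with hC₀
  have hC₀0 : 0 ≤ C₀ := by positivity
  have happ : ∀ a : ℝ, |a| ≤ 1 → ∀ f, ‖exp (a • G) f - f - a • G f‖ ≤ C₀ * a ^ 2 * ‖f‖ := by
    intro a ha f
    have h1 := exp_bound (a • G)
    have h2 : ‖exp (a • G) - 1 - a • G‖ ≤ C₀ * a ^ 2 := by
      refine h1.trans ?_
      rw [norm_smul, Real.norm_eq_abs, mul_pow, sq_abs, hC₀]
      have h3 : Real.exp (|a| * ‖G‖) ≤ Real.exp ‖G‖ := by
        apply Real.exp_le_exp.2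
        nlinarith [norm_nonneg G, abs_nonneg a]
      have h4 : a ^ 2 * ‖G‖ ^ 2 * Real.exp (|a| * ‖G‖) ≤ a ^ 2 * ‖G‖ ^ 2 * Real.exp ‖G‖ :=
        mul_le_mul_of_nonneg_left h3 (by positivity)
      linarith
    have h3 : exp (a • G) f - f - a • G f = (exp (a • G) - 1 - a • G) f := by simp
    rw [h3]
    exact (ContinuousLinearMap.le_opNorm _ _).trans (mul_le_mul_of_nonneg_right h2 (norm_nonneg _))
  have hadd : ∀ s t : ℝ, ∀ x, exp ((s + t) • G) x = exp (s • G) (exp (t • G) x) := by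
    intro s t x
    have : exp ((s + t) • G) = exp (s • G) * exp (t • G) := by
      rw [add_smul]
      exact exp_add_of_commute ((Commute.refl G).smul_left s |>.smul_right t)
    rw [this]; rfl
  have h0 : ∀ x, exp ((0 : ℝ) • G) x = x := by
    intro x; simp
  have hsmall : ∀ a : ℝ, |a| ≤ 1 → ∀ f, ‖exp (a • G) f‖ ≤ (1 + (C + C₀) * a ^ 2) * ‖f‖ := by
    intro a ha f
    have h1 := happ a ha f
    have h2 := hG f a
    have h3 : exp (a • G) f = (f + a • G f) + (exp (a • G) f - f - a • G f) := by abel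
    rw [h3]
    refine (norm_add_le _ _).trans ?_
    nlinarith
  have hpow : ∀ (a : ℝ), |a| ≤ 1 → ∀ (n : ℕ) (f : E),
      ‖exp (((n : ℝ) * a) • G) f‖ ≤ (1 + (C + C₀) * a ^ 2) ^ n * ‖f‖ := by
    intro a ha n
    induction n with
    | zero => intro f; simp
    | succ n ih =>
      intro f
      have h1 : ((n + 1 : ℕ) : ℝ) * a = a + n * a := by push_cast; ring
      rw [h1, hadd]
      refine (hsmall a ha _).trans ?_
      have h2 : (0 : ℝ) ≤ 1 + (C + C₀) * a ^ 2 := by positivity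
      calc (1 + (C + C₀) * a ^ 2) * ‖exp (((n : ℝ) * a) • G) f‖
          ≤ (1 + (C + C₀) * a ^ 2) * ((1 + (C + C₀) * a ^ 2) ^ n * ‖f‖) :=
            mul_le_mul_of_nonneg_left (ih f) h2
        _ = (1 + (C + C₀) * a ^ 2) ^ (n + 1) * ‖f‖ := by rw [pow_succ]; ring
  have hle : ∀ (t : ℝ) (f : E), ‖exp (t • G) f‖ ≤ ‖f‖ := by
    intro t f
    have hlim : Tendsto (fun n : ℕ => Real.exp ((C + C₀) * t ^ 2 / n) * ‖f‖) atTop
        (𝓝 (Real.exp 0 * ‖f‖)) := by
      apply Tendsto.mul_const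
      apply (Real.continuous_exp.tendsto 0).comp
      exact tendsto_const_div_atTop_nhds_zero_nat _
    rw [Real.exp_zero, one_mul] at hlim
    refine ge_of_tendsto hlim ?_
    obtain ⟨N, hN⟩ := exists_nat_ge |t|
    filter_upwards [eventually_ge_atTop (max N 1)] with n hn
    have hn1 : (1 : ℝ) ≤ n := by exact_mod_cast (le_trans (le_max_right _ _) hn)
    have hnN : |t| ≤ n := hN.trans (by exact_mod_cast (le_trans (le_max_left _ _) hn))
    have hn0 : (0 : ℝ) < n := by linarith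
    have ha : |t / n| ≤ 1 := by
      rw [abs_div, abs_of_pos hn0, div_le_one hn0]; exact hnN
    have h1 := hpow (t / n) ha n f
    have h2 : (n : ℝ) * (t / n) = t := by field_simp
    rw [h2] at h1
    refine h1.trans (mul_le_mul_of_nonneg_right ?_ (norm_nonneg _))
    have h3 : 1 + (C + C₀) * (t / n) ^ 2 ≤ Real.exp ((C + C₀) * (t / n) ^ 2) := by
      have := Real.add_one_le_exp ((C + C₀) * (t / n) ^ 2)
      linarith
    calc (1 + (C + C₀) * (t / n) ^ 2) ^ n ≤ (Real.exp ((C + C₀) * (t / n) ^ 2)) ^ n := by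
          apply pow_le_pow_left₀ (by positivity) h3
      _ = Real.exp ((C + C₀) * t ^ 2 / n) := by
          rw [← Real.exp_nat_mul]
          congr 1
          field_simp
  refine ⟨fun t => exp (t • G), C₀, hC₀0, h0, hadd, ?_, ?_⟩
  · intro t x
    apply le_antisymm (hle t x)
    have h1 := hle (-t) (exp (t • G) x)
    rw [← hadd, neg_add_cancel, h0] at h1
    exact h1
  · intro a ha0 ha1 f
    exact happ a (by rw [abs_of_nonneg ha0]; exact ha1) f

end

end Pool.Agent.R284.AS
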