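import Mathlib
import Pool.Agent.R284.AS.Grp

set_option autoImplicit false

namespace Pool.Agent.R284.AS

open Filter Topology

/-- the data of the chain theorem -/
structure Sys (E W : Type*) [NormedAddCommGroup E] [NormedSpace ℝ E]
    [NormedAddCommGroup W] [NormedSpace ℝ W] where
  ι : E →ₗᵢ[ℝ] W
  π : W →L[ℝ] E
  G : E →L[ℝ] E
  H : E →L[ℝ] W
  U : ℝ → E →L[ℝ] E
  C : ℝ
  hC : 0 ≤ C
  hπ : ∀ y, ‖π y‖ ≤ ‖y‖
  hπι : ∀ f, π (ι f) = f
  hH : ∀ f, π (H f) = 0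
  hG : ∀ (f : E) (a : ℝ), ‖f + a • G f‖ ≤ (1 + C * a ^ 2) * ‖f‖
  U0 : ∀ x, U 0 x = x
  Uadd : ∀ s t x, U (s + t) x = U s (U t x)
  Uiso : ∀ t x, ‖U t x‖ = ‖x‖
  Uapp : ∀ a : ℝ, 0 ≤ a → a ≤ 1 → ∀ f, ‖U a f - f - a • G f‖ ≤ C * a ^ 2 * ‖f‖
  hstep : ∀ (y : W) (w : E) (a : ℝ), 0 ≤ a → a ≤ 1 → ‖w‖ ≤ ‖π y‖ →
    ‖y + a • (ι (w - π y + G (π y)) + H (π y))‖ ≤ (1 + C * a ^ 2) * ‖y‖

variable {E W : Type*} [NormedAddCommGroup E] [NormedSpace ℝ E]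
    [NormedAddCommGroup W] [NormedSpace ℝ W]

namespace Sys

variable (S : Sys E W)

def Rel (κ : ℝ) (f g : E) : Prop :=
  ∃ ξ : E, ∀ z : W, S.π z = 0 → ‖S.ι g + z + S.H ξ‖ ≤ κ * ‖S.ι f + z‖

lemma norm_le (f : E) (z : W) (hz : S.π z = 0) : ‖f‖ ≤ ‖S.ι f + z‖ := by
  have h := S.hπ (S.ι f + z)
  rwa [map_add, S.hπι, hz, add_zero] at h

lemma Rel.comp {S : Sys E W} {κ κ' : ℝ} (hκ' : 0 ≤ κ') {f g h : E} (h1 : S.Rel κ f g)
    (h2 : S.Rel κ' g h) : S.Rel (κ * κ') f h := by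
  obtain ⟨ξ, hξ⟩ := h1
  obtain ⟨ξ', hξ'⟩ := h2
  refine ⟨ξ + ξ', fun z hz => ?_⟩
  have h3 := hξ z hz
  have h4 := hξ' (z + S.H ξ) (by rw [map_add, hz, S.hH, add_zero])
  have e1 : S.ι h + z + S.H (ξ + ξ') = S.ι h + (z + S.H ξ) + S.H ξ' := by
    rw [map_add]; abel
  have e2 : S.ι g + (z + S.H ξ) = S.ι g + z + S.H ξ := by abel
  rw [e1]
  rw [e2] at h4
  calc _ ≤ κ' * ‖S.ι g + z + S.H ξ‖ := h4
    _ ≤ κ' * (κ * ‖S.ι f + z‖) := mul_le_mul_of_nonneg_left h3 hκ'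
    _ = κ * κ' * ‖S.ι f + z‖ := by ring

lemma Rel.perturb {S : Sys E W} {κ ε : ℝ} (hε : 0 ≤ ε) {f g g' : E} (h1 : S.Rel κ f g)
    (h2 : ‖g - g'‖ ≤ ε * ‖f‖) : S.Rel (κ + ε) f g' := by
  obtain ⟨ξ, hξ⟩ := h1
  refine ⟨ξ, fun z hz => ?_⟩
  have h3 := hξ z hz
  have e1 : S.ι g' + z + S.H ξ = (S.ι g + z + S.H ξ) - S.ι (g - g') := by
    rw [map_sub]; abel
  rw [e1]
  have h4 := S.norm_le f z hz
  calc _ ≤ ‖S.ι g + z + S.H ξ‖ + ‖S.ι (g - g')‖ := norm_sub_le _ _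
    _ ≤ κ * ‖S.ι f + z‖ + ε * ‖S.ι f + z‖ := by
        rw [S.ι.norm_map]
        have := mul_le_mul_of_nonneg_left h4 hε
        linarith
    _ = (κ + ε) * ‖S.ι f + z‖ := by ring

lemma Rel.mono {S : Sys E W} {κ κ' : ℝ} (h : κ ≤ κ') {f g : E} (h1 : S.Rel κ f g) :
    S.Rel κ' f g := by
  obtain ⟨ξ, hξ⟩ := h1
  exact ⟨ξ, fun z hz => (hξ z hz).trans (mul_le_mul_of_nonneg_right h (norm_nonneg _))⟩

lemma Rel.refl (f : E) : S.Rel 1 f f := ⟨0, fun z _ => by simp⟩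

lemma Usub (a : ℝ) (ha0 : 0 ≤ a) (ha1 : a ≤ 1) (u : E) :
    ‖S.U a u - u‖ ≤ a * (S.C + ‖S.G‖) * ‖u‖ := by
  have h1 := S.Uapp a ha0 ha1 u
  have e : S.U a u - u = (S.U a u - u - a • S.G u) + a • S.G u := by abel
  rw [e]
  refine (norm_add_le _ _).trans ?_
  have h2 : ‖a • S.G u‖ ≤ a * (‖S.G‖ * ‖u‖) := by
    rw [norm_smul, Real.norm_eq_abs, abs_of_nonneg ha0]
    exact mul_le_mul_of_nonneg_left (S.G.le_opNorm u) ha0
  have h3 : S.C * a ^ 2 * ‖u‖ ≤ S.C * a * ‖u‖ := by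
    apply mul_le_mul_of_nonneg_right _ (norm_nonneg _)
    apply mul_le_mul_of_nonneg_left _ S.hC
    nlinarith
  nlinarith

/-- constant for rotated steps -/
noncomputable def C₁ : ℝ := S.C + 3 * S.C + 2 * ‖S.G‖

lemma C₁_nonneg : 0 ≤ S.C₁ := by
  unfold C₁
  have := S.hC
  positivity

lemma step (a : ℝ) (ha0 : 0 ≤ a) (ha1 : a ≤ 1) (f w : E) (hw : ‖w‖ ≤ ‖f‖) (z : W)
    (hz : S.π z = 0) :
    ‖S.ι (S.U a (f + a • (w - f))) + z + a • S.H f‖ ≤ (1 + S.C₁ * a ^ 2) * ‖S.ι f + z‖ := by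
  have hy : S.π (S.ι f + z) = f := by rw [map_add, S.hπι, hz, add_zero]
  have h1 := S.hstep (S.ι f + z) w a ha0 ha1 (by rw [hy]; exact hw)
  rw [hy] at h1
  set e : E := (S.U a f - f - a • S.G f) + a • (S.U a (w - f) - (w - f)) with he
  have e1 : S.U a (f + a • (w - f)) = (f + a • (w - f) + a • S.G f) + e := by
    rw [he, map_add, map_smul, smul_sub a (S.U a (w - f)) (w - f)]
    abel
  have e2 : S.ι (S.U a (f + a • (w - f))) + z + a • S.H f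
      = (S.ι f + z + a • (S.ι (w - f + S.G f) + S.H f)) + S.ι e := by
    rw [e1]
    simp only [map_add, map_smul, smul_add, map_sub, smul_sub]
    abel
  rw [e2]
  have hfn := S.norm_le f z hz
  have hwf : ‖w - f‖ ≤ 2 * ‖f‖ := by
    refine (norm_sub_le _ _).trans ?_
    linarith
  have he2 : ‖e‖ ≤ (3 * S.C + 2 * ‖S.G‖) * a ^ 2 * ‖f‖ := by
    rw [he]
    refine (norm_add_le _ _).trans ?_
    have h3 := S.Uapp a ha0 ha1 f
    have h4 : ‖a • (S.U a (w - f) - (w - f))‖ ≤ a * (a * (S.C + ‖S.G‖) * (2 * ‖f‖)) := by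
      rw [norm_smul, Real.norm_eq_abs, abs_of_nonneg ha0]
      apply mul_le_mul_of_nonneg_left _ ha0
      refine (S.Usub a ha0 ha1 (w - f)).trans ?_
      apply mul_le_mul_of_nonneg_left hwf
      have := S.hC
      positivity
    nlinarith
  calc _ ≤ ‖S.ι f + z + a • (S.ι (w - f + S.G f) + S.H f)‖ + ‖S.ι e‖ := norm_add_le _ _
    _ ≤ (1 + S.C * a ^ 2) * ‖S.ι f + z‖
        + (3 * S.C + 2 * ‖S.G‖) * a ^ 2 * ‖S.ι f + z‖ := by
        rw [S.ι.norm_map]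
        refine add_le_add h1 (he2.trans ?_)
        apply mul_le_mul_of_nonneg_left hfn
        have := S.hC
        positivity
    _ = (1 + S.C₁ * a ^ 2) * ‖S.ι f + z‖ := by unfold C₁; ring

lemma rel_step (a : ℝ) (ha0 : 0 ≤ a) (ha1 : a ≤ 1) (f w : E) (hw : ‖w‖ ≤ ‖f‖) :
    S.Rel (1 + S.C₁ * a ^ 2) f (S.U a (f + a • (w - f))) :=
  ⟨a • f, fun z hz => by rw [map_smul]; exact S.step a ha0 ha1 f w hw z hz⟩

lemma jump (f w : E) (η : E →L[ℝ] ℝ) (hη : ‖η‖ ≤ 1) (h1 : η w = ‖w‖) (h2 : ‖w‖ ≤ η f)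
    (τ : ℝ) (hτ : 0 < τ) (κ : ℝ) (hκ : 1 + 2 * Real.exp (-τ) < κ) : S.Rel κ f (S.U τ w) := by
  have hwf : ‖w‖ ≤ ‖f‖ := by
    refine h2.trans ((le_abs_self _).trans ?_)
    rw [← Real.norm_eq_abs]
    refine (η.le_opNorm f).trans ?_
    nlinarith [norm_nonneg f]
  -- choose N
  have hlim : Tendsto (fun n : ℕ => Real.exp (S.C₁ * τ ^ 2 / n) + 2 * Real.exp (-τ)) atTop
      (𝓝 (Real.exp 0 + 2 * Real.exp (-τ))) := by
    apply Tendsto.add_const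
    apply (Real.continuous_exp.tendsto 0).comp
    exact tendsto_const_div_atTop_nhds_zero_nat _
  rw [Real.exp_zero] at hlim
  have hev := hlim.eventually (gt_mem_nhds hκ)
  obtain ⟨N₀, hN₀⟩ := exists_nat_ge τ
  obtain ⟨N, hN, hN1, hN2⟩ := (hev.and ((eventually_ge_atTop (max N₀ 1)).and
    (eventually_ge_atTop N₀))).exists
  have hN1' : (1 : ℝ) ≤ N := by exact_mod_cast (le_trans (le_max_right _ _) hN1)
  have hNτ : τ ≤ N := hN₀.trans (by exact_mod_cast hN2)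
  have hNpos : (0 : ℝ) < N := by linarith
  set a : ℝ := τ / N with ha
  have ha0 : 0 ≤ a := by positivity
  have ha1 : a ≤ 1 := by rw [ha, div_le_one hNpos]; exact hNτ
  have hCa : (0 : ℝ) ≤ 1 + S.C₁ * a ^ 2 := by
    have := S.C₁_nonneg
    positivity
  have key : ∀ k : ℕ, S.Rel ((1 + S.C₁ * a ^ 2) ^ k) f
      (S.U (k * a) (w + (1 - a) ^ k • (f - w))) := by
    intro k
    induction k with
    | zero =>
      simp only [pow_zero, one_smul, Nat.cast_zero, zero_mul, S.U0]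
      have : w + (f - w) = f := by abel
      rw [this]
      exact Rel.refl S f
    | succ k ih =>
      have hb : (0 : ℝ) ≤ (1 - a) ^ k := pow_nonneg (by linarith) k
      have hb1 : (1 - a) ^ k ≤ 1 := pow_le_one₀ (by linarith) (by linarith)
      have hnorm : ‖w‖ ≤ ‖w + (1 - a) ^ k • (f - w)‖ := by
        have h3 : η (w + (1 - a) ^ k • (f - w)) = ‖w‖ + (1 - a) ^ k * (η f - ‖w‖) := by
          rw [map_add, map_smul, map_sub, h1, smul_eq_mul]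
        have h4 : ‖w‖ ≤ η (w + (1 - a) ^ k • (f - w)) := by
          rw [h3]; nlinarith
        refine h4.trans ((le_abs_self _).trans ?_)
        rw [← Real.norm_eq_abs]
        refine (η.le_opNorm _).trans ?_
        nlinarith [norm_nonneg (w + (1 - a) ^ k • (f - w))]
      have hs := S.rel_step a ha0 ha1 (S.U (k * a) (w + (1 - a) ^ k • (f - w)))
        (S.U (k * a) w) (by rw [S.Uiso, S.Uiso]; exact hnorm)
      have e1 : S.U a (S.U (k * a) (w + (1 - a) ^ k • (f - w)) + a • (S.U (k * a) w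
          - S.U (k * a) (w + (1 - a) ^ k • (f - w))))
          = S.U ((k + 1 : ℕ) * a) (w + (1 - a) ^ (k + 1) • (f - w)) := by
        rw [← map_sub, ← map_smul, ← map_add, ← S.Uadd]
        congr 1
        · push_cast; ring
        · rw [pow_succ]
          module
      rw [e1] at hs
      rw [pow_succ]
      exact ih.comp hCa hs
  have hfin := key N
  have e2 : (N : ℝ) * a = τ := by rw [ha]; field_simp
  rw [e2] at hfin
  have hb : (0 : ℝ) ≤ (1 - a) ^ N := pow_nonneg (by linarith) N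
  have hexp : (1 - a) ^ N ≤ Real.exp (-τ) := by
    have h3 : 1 - a ≤ Real.exp (-a) := by
      have := Real.add_one_le_exp (-a); linarith
    calc (1 - a) ^ N ≤ (Real.exp (-a)) ^ N := pow_le_pow_left₀ (by linarith) h3 N
      _ = Real.exp (-τ) := by
        rw [← Real.exp_nat_mul, ← e2]; congr 1; ring
  have hper : ‖S.U τ (w + (1 - a) ^ N • (f - w)) - S.U τ w‖ ≤ (2 * Real.exp (-τ)) * ‖f‖ := by
    rw [← map_sub, S.Uiso, add_sub_cancel_left, norm_smul, Real.norm_eq_abs, abs_of_nonneg hb]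
    have h4 : ‖f - w‖ ≤ 2 * ‖f‖ := (norm_sub_le _ _).trans (by linarith)
    calc (1 - a) ^ N * ‖f - w‖ ≤ Real.exp (-τ) * (2 * ‖f‖) :=
          mul_le_mul hexp h4 (norm_nonneg _) (Real.exp_pos _).le
      _ = (2 * Real.exp (-τ)) * ‖f‖ := by ring
  refine (hfin.perturb (by positivity) hper).mono ?_
  have h5 : (1 + S.C₁ * a ^ 2) ^ N ≤ Real.exp (S.C₁ * τ ^ 2 / N) := by
    have h3 : 1 + S.C₁ * a ^ 2 ≤ Real.exp (S.C₁ * a ^ 2) := by
      have := Real.add_one_le_exp (S.C₁ * a ^ 2); linarith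
    calc (1 + S.C₁ * a ^ 2) ^ N ≤ (Real.exp (S.C₁ * a ^ 2)) ^ N := pow_le_pow_left₀ hCa h3 N
      _ = Real.exp (S.C₁ * τ ^ 2 / N) := by
        rw [← Real.exp_nat_mul]; congr 1; rw [ha]; field_simp
  linarith

end Sys

end Pool.Agent.R284.AS
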