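import Mathlib
import Pool.Agent.R284.AS.Chain

set_option autoImplicit false

namespace Pool.Agent.R284.AS

open Filter Topology

variable {E W : Type*} [NormedAddCommGroup E] [NormedSpace ℝ E]
    [NormedAddCommGroup W] [NormedSpace ℝ W]

lemma dual_le {E : Type*} [NormedAddCommGroup E] [NormedSpace ℝ E] (η : E →L[ℝ] ℝ) (hη : ‖η‖ ≤ 1)
    (x : E) : η x ≤ ‖x‖ := by
  refine (le_abs_self _).trans ?_
  rw [← Real.norm_eq_abs]
  refine (η.le_opNorm _).trans ?_
  nlinarith [norm_nonneg x]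

lemma dual_ge {E : Type*} [NormedAddCommGroup E] [NormedSpace ℝ E] (η : E →L[ℝ] ℝ) (hη : ‖η‖ ≤ 1)
    (x : E) : -‖x‖ ≤ η x := by
  have := dual_le η hη (-x)
  rw [map_neg, norm_neg] at this
  linarith

lemma exists_support {E : Type*} [NormedAddCommGroup E] [NormedSpace ℝ E] (x : E) :
    ∃ η : E →L[ℝ] ℝ, ‖η‖ ≤ 1 ∧ η x = ‖x‖ := by
  obtain ⟨g, hg, hg'⟩ := exists_dual_vector'' ℝ x
  exact ⟨g, hg, by simpa using hg'⟩

namespace Sys

variable (S : Sys E W)

lemma segment (u w : E) (hu : ‖u‖ = 1) (hw : ‖w‖ = 1) (μ : ℝ) (hμ : 0 < μ)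
    (hseg : ∀ t : ℝ, 0 ≤ t → t ≤ 1 → μ ≤ ‖u + t • (w - u)‖) (τ : ℝ) (hτ : 0 < τ)
    (M : ℕ) (hM : 0 < M) (hMμ : 4 / (M * μ) < 1) (κ : ℝ) (hκ : 1 + 2 * Real.exp (-τ) < κ) :
    S.Rel (κ ^ M + 4 / (M * μ)) u (S.U (M * τ) w) := by
  have hMr : (0 : ℝ) < M := by exact_mod_cast hM
  set s : ℝ := 1 / M with hs
  have hs0 : 0 < s := by positivity
  set l : ℕ → E := fun k => u + ((k : ℝ) * s) • (w - u) with hl
  choose η hη1 hη2 using fun k : ℕ => exists_support (l k)
  set p : ℕ → ℝ := fun k => η k (w - u) with hp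
  have hwu : ‖w - u‖ ≤ 2 := (norm_sub_le _ _).trans (by linarith)
  have hpb : ∀ k, p k ≤ 2 := fun k => (dual_le _ (hη1 k) _).trans hwu
  have hpb' : ∀ k, -2 ≤ p k := fun k => by
    have := dual_ge _ (hη1 k) (w - u); simp only [hp]; linarith
  have hlsucc : ∀ k, l (k + 1) = l k + s • (w - u) := by
    intro k
    simp only [hl]
    push_cast
    module
  have hlpos : ∀ k, k ≤ M → μ ≤ ‖l k‖ := by
    intro k hk
    apply hseg
    · positivity
    · rw [hs, mul_one_div, div_le_one hMr]; exact_mod_cast hk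
  -- values
  have hv1 : ∀ k, η (k + 1) (l k) = ‖l (k + 1)‖ - s * p (k + 1) := by
    intro k
    have : l k = l (k + 1) - s • (w - u) := by rw [hlsucc]; abel
    rw [this, map_sub, map_smul, hη2, smul_eq_mul]
  have hv2 : ∀ k, ‖l k‖ + s * p k ≤ ‖l (k + 1)‖ := by
    intro k
    have h1 := dual_le _ (hη1 k) (l (k + 1))
    rw [hlsucc, map_add, map_smul, hη2, smul_eq_mul] at h1
    rw [hlsucc]
    exact h1
  have hv3 : ∀ k, ‖l (k + 1)‖ - s * p (k + 1) ≤ ‖l k‖ := by
    intro k
    rw [← hv1]; exact dual_le _ (hη1 (k + 1)) _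
  have hpmono : ∀ k, p k ≤ p (k + 1) := by
    intro k
    have h1 := hv2 k
    have h2 := hv3 k
    by_contra h
    push Not at h
    nlinarith
  have hp0 : ∀ k, p 0 ≤ p k := by
    intro k
    induction k with
    | zero => exact le_refl _
    | succ k ih => exact ih.trans (hpmono k)
  set θ : ℕ → ℝ := fun k => η (k + 1) (l k) / ‖l k‖ with hθ
  let ρ : ℕ → ℝ := fun k => Nat.rec (motive := fun _ => ℝ) 1 (fun n r => r * θ n) k
  have hρ0 : ρ 0 = 1 := rfl
  have hρs : ∀ k, ρ (k + 1) = ρ k * θ k := fun k => rfl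
  have hθ1 : ∀ k, k ≤ M → θ k ≤ 1 := by
    intro k hk
    have := hlpos k hk
    simp only [hθ]
    rw [div_le_one (by linarith)]
    exact dual_le _ (hη1 (k + 1)) _
  have hθ2 : ∀ k, k ≤ M → 1 - s * (p (k + 1) - p k) / μ ≤ θ k := by
    intro k hk
    have h0 := hlpos k hk
    have h1 := hv1 k
    have h2 := hv2 k
    simp only [hθ]
    rw [le_div_iff₀ (by linarith), h1]
    have h3 : 0 ≤ s * (p (k + 1) - p k) := mul_nonneg hs0.le (by linarith [hpmono k])
    have h4 : s * (p (k + 1) - p k) ≤ s * (p (k + 1) - p k) / μ * ‖l k‖ := by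
      calc s * (p (k + 1) - p k) = s * (p (k + 1) - p k) / μ * μ := by
            rw [div_mul_cancel₀ _ hμ.ne']
        _ ≤ s * (p (k + 1) - p k) / μ * ‖l k‖ :=
            mul_le_mul_of_nonneg_left h0 (div_nonneg h3 hμ.le)
    nlinarith
  have hsum : ∀ k, s * (p k - p 0) / μ ≤ 4 / (M * μ) := by
    intro k
    have h1 := hpb k
    have h2 := hpb' 0
    have : s * (p k - p 0) / μ = (p k - p 0) / (M * μ) := by
      rw [hs]; field_simp
    rw [this]
    apply div_le_div_of_nonneg_right _ (by positivity)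
    linarith
  have hρb : ∀ k, k ≤ M → 1 - s * (p k - p 0) / μ ≤ ρ k ∧ ρ k ≤ 1 := by
    intro k
    induction k with
    | zero => intro _; simp [hρ0]
    | succ k ih =>
      intro hk
      obtain ⟨h1, h2⟩ := ih (by omega)
      have h3 := hθ1 k (by omega)
      have h4 := hθ2 k (by omega)
      have h5 := hsum k
      have h6 : 0 ≤ ρ k := by linarith
      have h7 : 0 ≤ s * (p (k + 1) - p k) / μ :=
        div_nonneg (mul_nonneg hs0.le (by linarith [hpmono k])) hμ.le
      rw [hρs]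
      constructor
      · have h8 : ρ k * (1 - s * (p (k + 1) - p k) / μ) ≤ ρ k * θ k :=
          mul_le_mul_of_nonneg_left h4 h6
        have h9 : s * (p (k + 1) - p 0) / μ
            = s * (p k - p 0) / μ + s * (p (k + 1) - p k) / μ := by ring
        rw [h9]
        nlinarith
      · nlinarith
  have hρnn : ∀ k, k ≤ M → 0 ≤ ρ k := by
    intro k hk
    have h1 := (hρb k hk).1
    have h5 := hsum k
    linarith
  have hκ0 : 0 ≤ κ := by
    have := Real.exp_pos (-τ)
    linarith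
  have key : ∀ k : ℕ, k ≤ M → S.Rel (κ ^ k) u (S.U (k * τ) ((ρ k / ‖l k‖) • l k)) := by
    intro k
    induction k with
    | zero =>
      intro _
      have h0 : l 0 = u := by simp [hl]
      simp only [pow_zero, Nat.cast_zero, zero_mul, S.U0, hρ0, h0, hu]
      simpa using Rel.refl S u
    | succ k ih =>
      intro hk
      have ih' := ih (by omega)
      have hpos : 0 < ‖l (k + 1)‖ := lt_of_lt_of_le hμ (hlpos _ hk)
      have hposk : 0 < ‖l k‖ := lt_of_lt_of_le hμ (hlpos _ (by omega))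
      have hr := hρnn (k + 1) hk
      have hj := S.jump (S.U (k * τ) ((ρ k / ‖l k‖) • l k))
        (S.U (k * τ) ((ρ (k + 1) / ‖l (k + 1)‖) • l (k + 1)))
        ((η (k + 1)).comp (S.U (-(k * τ)))) ?_ ?_ ?_ τ hτ κ hκ
      · rw [← S.Uadd] at hj
        have e : τ + (k : ℝ) * τ = ((k + 1 : ℕ) : ℝ) * τ := by push_cast; ring
        rw [e] at hj
        rw [pow_succ]
        exact ih'.comp hκ0 hj
      · refine ContinuousLinearMap.opNorm_le_bound _ zero_le_one fun x => ?_
        rw [ContinuousLinearMap.comp_apply, one_mul]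
        refine ((η (k + 1)).le_opNorm _).trans ?_
        rw [S.Uiso]
        have := hη1 (k + 1)
        nlinarith [norm_nonneg x]
      · rw [ContinuousLinearMap.comp_apply, ← S.Uadd, neg_add_cancel, S.U0, S.Uiso, map_smul,
          hη2, norm_smul, smul_eq_mul, Real.norm_eq_abs, abs_of_nonneg (by positivity)]
      · rw [ContinuousLinearMap.comp_apply, ← S.Uadd, neg_add_cancel, S.U0, S.Uiso, map_smul,
          norm_smul, smul_eq_mul, Real.norm_eq_abs, abs_of_nonneg (by positivity)]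
        have e1 : ρ (k + 1) / ‖l (k + 1)‖ * ‖l (k + 1)‖ = ρ (k + 1) := by field_simp
        have e2 : ρ k / ‖l k‖ * η (k + 1) (l k) = ρ (k + 1) := by
          rw [hρs]; simp only [hθ]; ring
        rw [e1, e2]
  have hfin := key M le_rfl
  have hlM : l M = w := by
    simp only [hl, hs]
    rw [mul_one_div_cancel hMr.ne', one_smul]
    abel
  rw [hlM, hw, div_one] at hfin
  refine hfin.perturb (by positivity) ?_
  rw [← map_sub, S.Uiso, hu, mul_one]
  have e : ρ M • w - w = (ρ M - 1) • w := by rw [sub_smul, one_smul]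
  rw [e, norm_smul, hw, mul_one, Real.norm_eq_abs, abs_le]
  have h1 := hρb M le_rfl
  have h2 := hsum M
  constructor <;> linarith

end Sys

end Pool.Agent.R284.AS
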