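import Mathlib
import Pool.Agent.R284.AS.Seg

set_option autoImplicit false

namespace Pool.Agent.R284.AS

open Filter Topology

lemma comb_ge {E : Type*} [NormedAddCommGroup E] [NormedSpace ℝ E] (x y : E) (d : ℝ)
    (h : ∀ c : ℝ, d ≤ ‖x - c • y‖) (a b : ℝ) (ha : 0 ≤ a) : a * d ≤ ‖a • x + b • y‖ := by
  rcases ha.eq_or_lt with h0 | h0
  · rw [← h0]; simp
  · have h1 := h (-(b / a))
    have e : a • x + b • y = a • (x - (-(b / a)) • y) := by
      rw [smul_sub, smul_smul]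
      have : a * -(b / a) = -b := by field_simp
      rw [this]; module
    rw [e, norm_smul, Real.norm_eq_abs, abs_of_pos h0]
    exact mul_le_mul_of_nonneg_left h1 h0.le

lemma exists_mid {E : Type*} [NormedAddCommGroup E] [NormedSpace ℝ E]
    (hdim : ∀ f : E, ∃ g : E, g ∉ Submodule.span ℝ {f}) (f g : E) (hf : ‖f‖ = 1) (hg : ‖g‖ = 1) :
    ∃ v : E, ‖v‖ = 1 ∧ (∀ t : ℝ, 0 ≤ t → t ≤ 1 → 1 / 17 ≤ ‖f + t • (v - f)‖) ∧
      ∀ t : ℝ, 0 ≤ t → t ≤ 1 → 1 / 17 ≤ ‖v + t • (g - v)‖ := by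
  have hcl : IsClosed ((Submodule.span ℝ {f} : Submodule ℝ E) : Set E) :=
    Submodule.closed_of_finiteDimensional _
  obtain ⟨x₀, hx₀, hx₁⟩ := riesz_lemma hcl (hdim f) (r := 1 / 2) (by norm_num)
  have hx0 : x₀ ≠ 0 := by
    rintro rfl
    exact hx₀ (Submodule.zero_mem _)
  have hxn : 0 < ‖x₀‖ := norm_pos_iff.2 hx0
  set v₁ : E := ‖x₀‖⁻¹ • x₀ with hv₁
  have hv1n : ‖v₁‖ = 1 := by
    rw [hv₁, norm_smul, norm_inv, norm_norm, inv_mul_cancel₀ hxn.ne']
  have hv1f : ∀ c : ℝ, 1 / 2 ≤ ‖v₁ - c • f‖ := by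
    intro c
    have h1 := hx₁ ((‖x₀‖ * c) • f) (Submodule.smul_mem _ _ (Submodule.mem_span_singleton_self f))
    have e : v₁ - c • f = ‖x₀‖⁻¹ • (x₀ - (‖x₀‖ * c) • f) := by
      rw [hv₁, smul_sub, smul_smul, ← mul_assoc, inv_mul_cancel₀ hxn.ne', one_mul]
    rw [e, norm_smul, norm_inv, norm_norm, ← div_eq_inv_mul, le_div_iff₀ hxn]
    exact h1
  by_cases hcase : ∀ c : ℝ, 1 / 8 ≤ ‖v₁ - c • g‖
  · refine ⟨v₁, hv1n, ?_, ?_⟩
    · intro t ht0 ht1
      have e : f + t • (v₁ - f) = t • v₁ + (1 - t) • f := by module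
      have h1 := comb_ge v₁ f (1 / 2) hv1f t (1 - t) ht0
      have h2 : (1 - t) - t ≤ ‖t • v₁ + (1 - t) • f‖ := by
        have h3 : ‖(1 - t) • f‖ ≤ ‖t • v₁ + (1 - t) • f‖ + ‖t • v₁‖ := by
          have : (1 - t) • f = (t • v₁ + (1 - t) • f) - t • v₁ := by abel
          calc ‖(1 - t) • f‖ = ‖(t • v₁ + (1 - t) • f) - t • v₁‖ := by rw [← this]
            _ ≤ _ := norm_sub_le _ _
        rw [norm_smul, norm_smul, hf, hv1n, Real.norm_eq_abs, Real.norm_eq_abs,
          abs_of_nonneg ht0, abs_of_nonneg (by linarith : (0 : ℝ) ≤ 1 - t)] at h3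
        linarith
      rw [e]
      rcases le_total t (2 / 5) with h | h <;> linarith
    · intro t ht0 ht1
      have e : v₁ + t • (g - v₁) = (1 - t) • v₁ + t • g := by module
      have h1 := comb_ge v₁ g (1 / 8) hcase (1 - t) t (by linarith)
      have h2 : t - (1 - t) ≤ ‖(1 - t) • v₁ + t • g‖ := by
        have h3 : ‖t • g‖ ≤ ‖(1 - t) • v₁ + t • g‖ + ‖(1 - t) • v₁‖ := by
          have : t • g = ((1 - t) • v₁ + t • g) - (1 - t) • v₁ := by abel
          calc ‖t • g‖ = ‖((1 - t) • v₁ + t • g) - (1 - t) • v₁‖ := by rw [← this]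
            _ ≤ _ := norm_sub_le _ _
        rw [norm_smul, norm_smul, hg, hv1n, Real.norm_eq_abs, Real.norm_eq_abs,
          abs_of_nonneg ht0, abs_of_nonneg (by linarith : (0 : ℝ) ≤ 1 - t)] at h3
        linarith
      rw [e]
      rcases le_total t (9 / 17) with h | h <;> linarith
  · push Not at hcase
    obtain ⟨c, hc⟩ := hcase
    have hcabs : |c| ≤ 9 / 8 := by
      have h1 : ‖c • g‖ ≤ ‖v₁‖ + ‖v₁ - c • g‖ := by
        have : c • g = v₁ - (v₁ - c • g) := by abel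
        calc ‖c • g‖ = ‖v₁ - (v₁ - c • g)‖ := by rw [← this]
          _ ≤ _ := norm_sub_le _ _
      rw [norm_smul, hg, hv1n, Real.norm_eq_abs] at h1
      linarith
    have hgf : ∀ d : ℝ, 1 / 3 ≤ ‖g - d • f‖ := by
      intro d
      have h1 := hv1f (c * d)
      have h2 : ‖v₁ - (c * d) • f‖ ≤ ‖v₁ - c • g‖ + ‖c • (g - d • f)‖ := by
        have : v₁ - (c * d) • f = (v₁ - c • g) + c • (g - d • f) := by
          rw [smul_sub, smul_smul]; abel
        rw [this]; exact norm_add_le _ _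
      rw [norm_smul, Real.norm_eq_abs] at h2
      nlinarith [norm_nonneg (g - d • f), abs_nonneg c]
    refine ⟨g, hg, ?_, ?_⟩
    · intro t ht0 ht1
      have e : f + t • (g - f) = t • g + (1 - t) • f := by module
      have h1 := comb_ge g f (1 / 3) hgf t (1 - t) ht0
      have h2 : (1 - t) - t ≤ ‖t • g + (1 - t) • f‖ := by
        have h3 : ‖(1 - t) • f‖ ≤ ‖t • g + (1 - t) • f‖ + ‖t • g‖ := by
          have : (1 - t) • f = (t • g + (1 - t) • f) - t • g := by abel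
          calc ‖(1 - t) • f‖ = ‖(t • g + (1 - t) • f) - t • g‖ := by rw [← this]
            _ ≤ _ := norm_sub_le _ _
        rw [norm_smul, norm_smul, hf, hg, Real.norm_eq_abs, Real.norm_eq_abs,
          abs_of_nonneg ht0, abs_of_nonneg (by linarith : (0 : ℝ) ≤ 1 - t)] at h3
        linarith
      rw [e]
      rcases le_total t (3 / 7) with h | h <;> linarith
    · intro t ht0 ht1
      rw [sub_self, smul_zero, add_zero, hg]
      norm_num

variable {E W : Type*} [NormedAddCommGroup E] [NormedSpace ℝ E]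
    [NormedAddCommGroup W] [NormedSpace ℝ W]

namespace Sys

variable (S : Sys E W)

lemma all_pairs (hdim : ∀ f : E, ∃ g : E, g ∉ Submodule.span ℝ {f}) (f g : E) (hf : ‖f‖ = 1)
    (hg : ‖g‖ = 1) (κ : ℝ) (hκ : 1 < κ) : S.Rel κ f g := by
  obtain ⟨δ, hδ0, hδ1, hδ2⟩ : ∃ δ : ℝ, 0 < δ ∧ δ ≤ 1 / 4 ∧ (1 + 2 * δ) * (1 + 2 * δ) ≤ κ := by
    refine ⟨min ((κ - 1) / 8) (1 / 4), lt_min (by linarith) (by norm_num), min_le_right _ _, ?_⟩
    have h1 : min ((κ - 1) / 8) (1 / 4) ≤ (κ - 1) / 8 := min_le_left _ _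
    have h2 : min ((κ - 1) / 8) (1 / 4) ≤ 1 / 4 := min_le_right _ _
    have h3 : 0 < min ((κ - 1) / 8) (1 / 4) := lt_min (by linarith) (by norm_num)
    nlinarith
  obtain ⟨M, hM⟩ := exists_nat_gt (68 / δ)
  have hMr : (0 : ℝ) < M := lt_trans (by positivity) hM
  have hM0 : 0 < M := by exact_mod_cast hMr
  have hM2 : 4 / ((M : ℝ) * (1 / 17)) ≤ δ := by
    rw [div_le_iff₀ (by positivity)]
    rw [div_lt_iff₀ hδ0] at hM
    linarith
  set κ' : ℝ := 1 + δ / (2 * M) with hκ'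
  have hκ'M : κ' ^ M ≤ 1 + δ := by
    have h1 : κ' ≤ Real.exp (δ / (2 * M)) := by
      have := Real.add_one_le_exp (δ / (2 * M)); linarith
    have h2 : κ' ^ M ≤ Real.exp (δ / 2) := by
      calc κ' ^ M ≤ (Real.exp (δ / (2 * M))) ^ M := pow_le_pow_left₀ (by positivity) h1 M
        _ = Real.exp (δ / 2) := by
          rw [← Real.exp_nat_mul]; congr 1; field_simp
    have h3 : Real.exp (δ / 2) ≤ 1 / (1 - δ / 2) := by
      have h4 : 1 - δ / 2 ≤ Real.exp (-(δ / 2)) := by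
        have := Real.add_one_le_exp (-(δ / 2)); linarith
      rw [Real.exp_neg] at h4
      rw [le_div_iff₀ (by linarith)]
      have h5 := Real.exp_pos (δ / 2)
      calc Real.exp (δ / 2) * (1 - δ / 2) ≤ Real.exp (δ / 2) * (Real.exp (δ / 2))⁻¹ :=
            mul_le_mul_of_nonneg_left h4 h5.le
        _ = 1 := mul_inv_cancel₀ h5.ne'
    refine h2.trans (h3.trans ?_)
    rw [div_le_iff₀ (by linarith)]
    nlinarith
  set τ : ℝ := Real.log (4 * M / δ) + 1 with hτ
  have h4M : 1 ≤ 4 * M / δ := by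
    rw [le_div_iff₀ hδ0]
    have : (1 : ℝ) ≤ M := by exact_mod_cast hM0
    linarith
  have hτ0 : 0 < τ := by
    have := Real.log_nonneg h4M
    linarith
  have hτe : 1 + 2 * Real.exp (-τ) < κ' := by
    have h1 : Real.exp (-τ) = (δ / (4 * M)) * Real.exp (-1) := by
      rw [hτ, neg_add, Real.exp_add, Real.exp_neg, Real.exp_log (by positivity)]
      field_simp
    have h2 : Real.exp (-1) < 1 := by
      rw [Real.exp_lt_one_iff]; norm_num
    rw [h1, hκ']
    have h3 : 0 < δ / (4 * M) := by positivity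
    have h4 : δ / (2 * M) = 2 * (δ / (4 * M)) := by field_simp; norm_num
    rw [h4]
    nlinarith
  set T : ℝ := M * τ with hT
  set g' : E := S.U (-(T + T)) g with hg'
  have hg'n : ‖g'‖ = 1 := by rw [hg', S.Uiso, hg]
  obtain ⟨v, hv, hv1, hv2⟩ := exists_mid hdim f g' hf hg'n
  have hlt : 4 / ((M : ℝ) * (1 / 17)) < 1 := by linarith
  have r1 := S.segment f v hf hv (1 / 17) (by norm_num) hv1 τ hτ0 M hM0 hlt κ' hτe
  have r2 := S.segment (S.U T v) (S.U T g') (by rw [S.Uiso, hv]) (by rw [S.Uiso, hg'n]) (1 / 17)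
    (by norm_num) (fun t ht0 ht1 => by
      rw [← map_sub, ← map_smul, ← map_add, S.Uiso]; exact hv2 t ht0 ht1) τ hτ0 M hM0 hlt κ' hτe
  rw [← hT] at r1 r2
  have hback : S.U T (S.U T g') = g := by
    rw [hg', ← S.Uadd, ← S.Uadd]
    have : T + T + -(T + T) = 0 := by ring
    rw [this, S.U0]
  rw [hback] at r2
  have hκ'0 : 0 ≤ κ' := by positivity
  have hnn : 0 ≤ κ' ^ M + 4 / ((M : ℝ) * (1 / 17)) := by positivity
  refine (r1.comp hnn r2).mono ?_
  have h5 : κ' ^ M + 4 / ((M : ℝ) * (1 / 17)) ≤ 1 + 2 * δ := by linarith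
  refine le_trans ?_ hδ2
  exact mul_le_mul h5 h5 hnn (by linarith)

lemma bounded_shift (f : E) (hf : ‖f‖ = 1) (c : W) (hc : S.π c = 0) (ε : ℝ) (hε0 : 0 < ε)
    (hε1 : ε ≤ 1) (h : ∀ z, S.π z = 0 → ‖S.ι f + z + c‖ ≤ (1 + ε) * ‖S.ι f + z‖) :
    ‖c‖ ≤ 9 * ε := by
  have hind : ∀ j : ℕ, ‖S.ι f + (j : ℝ) • c‖ ≤ (1 + ε) ^ j := by
    intro j
    induction j with
    | zero => simp [hf]
    | succ j ih =>
      have h1 := h ((j : ℝ) • c) (by rw [map_smul, hc, smul_zero])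
      have e : S.ι f + ((j + 1 : ℕ) : ℝ) • c = S.ι f + (j : ℝ) • c + c := by
        push_cast; module
      rw [e, pow_succ]
      refine h1.trans ?_
      rw [mul_comm]
      exact mul_le_mul_of_nonneg_right ih (by linarith)
  set j : ℕ := ⌈1 / ε⌉₊ with hj
  have hj1 : 1 / ε ≤ j := Nat.le_ceil _
  have hj2 : (j : ℝ) < 1 / ε + 1 := Nat.ceil_lt_add_one (by positivity)
  have hjpos : (0 : ℝ) < j := lt_of_lt_of_le (by positivity) hj1
  have hjε : (j : ℝ) * ε ≤ 2 := by
    have : (j : ℝ) * ε ≤ (1 / ε + 1) * ε := mul_le_mul_of_nonneg_right hj2.le hε0.le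
    have e : (1 / ε + 1) * ε = 1 + ε := by field_simp
    linarith
  have h8 : (1 + ε) ^ j ≤ 8 := by
    calc (1 + ε) ^ j ≤ (Real.exp ε) ^ j := by
          apply pow_le_pow_left₀ (by linarith)
          have := Real.add_one_le_exp ε; linarith
      _ = Real.exp (j * ε) := by rw [← Real.exp_nat_mul]
      _ ≤ Real.exp 2 := Real.exp_le_exp.2 hjε
      _ = Real.exp 1 * Real.exp 1 := by rw [← Real.exp_add]; norm_num
      _ ≤ 2.7182818286 * 2.7182818286 := by
          have h1 := Real.exp_one_lt_d9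
          have h2 := Real.exp_pos 1
          nlinarith
      _ ≤ 8 := by norm_num
  have h9 : (j : ℝ) * ‖c‖ ≤ 9 := by
    have h1 : ‖(j : ℝ) • c‖ ≤ ‖S.ι f + (j : ℝ) • c‖ + ‖S.ι f‖ := by
      have : (j : ℝ) • c = (S.ι f + (j : ℝ) • c) - S.ι f := by abel
      calc ‖(j : ℝ) • c‖ = ‖(S.ι f + (j : ℝ) • c) - S.ι f‖ := by rw [← this]
        _ ≤ _ := norm_sub_le _ _
    rw [norm_smul, Real.norm_eq_abs, abs_of_pos hjpos, S.ι.norm_map, hf] at h1
    have := hind j
    linarith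
  have h10 : 1 / ε * ‖c‖ ≤ 9 := (mul_le_mul_of_nonneg_right hj1 (norm_nonneg _)).trans h9
  rw [one_div, ← div_eq_inv_mul, div_le_iff₀ hε0] at h10
  exact h10

lemma H_zero (hall : ∀ f g : E, ‖f‖ = 1 → ‖g‖ = 1 → ∀ κ : ℝ, 1 < κ → S.Rel κ f g) (f : E)
    (hf : ‖f‖ = 1) : S.H f = 0 := by
  set A : ℝ := S.C₁ with hA
  have hA0 : 0 ≤ A := S.C₁_nonneg
  have hC0 := S.hC
  set q : ℝ := 3 * A + A ^ 2 + 2 * S.C with hq
  have hq0 : 0 ≤ q := by positivity
  set D : ℝ := 1 + 2 * q with hD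
  have hD1 : 1 ≤ D := by linarith
  set D' : ℝ := 18 * D + ‖S.H‖ * (S.C + ‖S.G‖) with hD'
  have main : ∀ K : ℝ, D ≤ K → ‖S.H f‖ ≤ D' / K := by
    intro K hK
    have hK1 : 1 ≤ K := hD1.trans hK
    have hK0 : 0 < K := by linarith
    set a : ℝ := 1 / K ^ 2 with ha
    set b : ℝ := 1 / K ^ 3 with hb
    set e4 : ℝ := 1 / K ^ 4 with he4
    have hK2 : 1 ≤ K ^ 2 := one_le_pow₀ hK1
    have hK3 : 1 ≤ K ^ 3 := one_le_pow₀ hK1
    have hK4 : 1 ≤ K ^ 4 := one_le_pow₀ hK1
    have ha0 : 0 < a := by positivity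
    have hb0 : 0 < b := by positivity
    have he0 : 0 < e4 := by positivity
    have ha1 : a ≤ 1 := by rw [ha, div_le_one (by positivity)]; exact hK2
    have hb1 : b ≤ 1 := by rw [hb, div_le_one (by positivity)]; exact hK3
    have he1 : e4 ≤ 1 := by rw [he4, div_le_one (by positivity)]; exact hK4
    have haa : a ^ 2 = e4 := by rw [ha, he4]; field_simp
    have hbb : b ^ 2 ≤ e4 := by
      rw [hb, he4, div_pow, one_pow]
      apply one_div_le_one_div_of_le (by positivity)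
      rw [← pow_mul]
      exact pow_le_pow_right₀ hK1 (by norm_num)
    set w : E := f + (1 / a) • (S.U b f - f) with hw
    set ℓ : ℝ := 2 * S.C / K ^ 2 with hℓ
    have hℓ0 : 0 ≤ ℓ := by positivity
    have hwn : ‖w‖ ≤ 1 + ℓ := by
      have e : w = (f + (b / a) • S.G f) + (1 / a) • (S.U b f - f - b • S.G f) := by
        rw [hw, smul_sub (1 / a) (S.U b f - f), smul_smul]
        have : 1 / a * b = b / a := by ring
        rw [this]; abel
      rw [e]
      refine (norm_add_le _ _).trans ?_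
      have h1 := S.hG f (b / a)
      have h2 : ‖(1 / a) • (S.U b f - f - b • S.G f)‖ ≤ (1 / a) * (S.C * b ^ 2 * ‖f‖) := by
        rw [norm_smul, Real.norm_eq_abs, abs_of_nonneg (by positivity)]
        exact mul_le_mul_of_nonneg_left (S.Uapp b hb0.le hb1 f) (by positivity)
      rw [hf, mul_one] at h1 h2
      have h3 : S.C * (b / a) ^ 2 = S.C / K ^ 2 := by rw [ha, hb]; field_simp
      have h4 : (1 / a) * (S.C * b ^ 2) ≤ S.C / K ^ 2 := by
        have : (1 / a) * (S.C * b ^ 2) = S.C / K ^ 4 := by rw [ha, hb]; field_simp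
        rw [this]
        apply div_le_div_of_nonneg_left hC0 (by positivity)
        exact pow_le_pow_right₀ hK1 (by norm_num)
      have h5 : ℓ = S.C / K ^ 2 + S.C / K ^ 2 := by rw [hℓ]; ring
      rw [h5]
      linarith
    set w' : E := (1 + ℓ)⁻¹ • w with hw'
    have hw'n : ‖w'‖ ≤ ‖f‖ := by
      rw [hw', norm_smul, norm_inv, Real.norm_eq_abs, abs_of_pos (by linarith), hf,
        inv_mul_le_iff₀ (by linarith), mul_one]
      exact hwn
    have hww : w = (1 + ℓ) • w' := by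
      rw [hw', smul_smul, mul_inv_cancel₀ (by linarith), one_smul]
    have hUab : S.U a (f + a • (w - f)) = S.U (a + b) f := by
      rw [S.Uadd]
      congr 1
      rw [hw, add_sub_cancel_left, smul_smul, mul_one_div_cancel ha0.ne', one_smul]
      abel
    -- relation A
    have relA : ∀ z, S.π z = 0 →
        ‖S.ι (S.U (a + b) f) + z + a • S.H f‖ ≤ (1 + q * e4) * ‖S.ι f + z‖ := by
      intro z hz
      have h1 := S.step a ha0.le ha1 f w' hw'n z hz
      have hn := S.norm_le f z hz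
      rw [hf] at hn
      have e1 : S.U (a + b) f = S.U a (f + a • (w' - f)) + (a * ℓ) • S.U a w' := by
        rw [← hUab, ← map_smul, ← map_add]
        congr 1
        rw [hww]
        module
      have e2 : S.ι (S.U (a + b) f) + z + a • S.H f
          = (S.ι (S.U a (f + a • (w' - f))) + z + a • S.H f) + (a * ℓ) • S.ι (S.U a w') := by
        rw [e1, map_add, map_smul]; abel
      rw [e2]
      refine (norm_add_le _ _).trans ?_
      have h2 : ‖(a * ℓ) • S.ι (S.U a w')‖ ≤ a * ℓ * ‖S.ι f + z‖ := by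
        rw [norm_smul, Real.norm_eq_abs, abs_of_nonneg (by positivity), S.ι.norm_map, S.Uiso]
        apply mul_le_mul_of_nonneg_left _ (by positivity)
        rw [hf] at hw'n
        exact hw'n.trans hn
      have h3 : a * ℓ = 2 * S.C * e4 := by rw [ha, hℓ, he4]; field_simp
      rw [haa] at h1
      rw [h3] at h2
      have h4 : (1 + A * e4) + 2 * S.C * e4 ≤ 1 + q * e4 := by
        have : q * e4 = 3 * A * e4 + A ^ 2 * e4 + 2 * S.C * e4 := by rw [hq]; ring
        rw [this]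
        have h6 : 0 ≤ A * e4 := by positivity
        have h7 : 0 ≤ A ^ 2 * e4 := by positivity
        linarith
      have h5 := mul_le_mul_of_nonneg_right h4 (norm_nonneg (S.ι f + z))
      rw [hA, add_mul] at h5
      rw [h3]
      linarith
    -- relation B
    have relB : ∀ z, S.π z = 0 →
        ‖S.ι (S.U (a + b) f) + z + (a • S.H f + b • S.H (S.U a f))‖
          ≤ (1 + q * e4) * ‖S.ι f + z‖ := by
      intro z hz
      have h1 := S.step a ha0.le ha1 f f le_rfl z hz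
      rw [sub_self, smul_zero, add_zero] at h1
      have h2 := S.step b hb0.le hb1 (S.U a f) (S.U a f) le_rfl (z + a • S.H f)
        (by rw [map_add, map_smul, hz, S.hH, smul_zero, add_zero])
      rw [sub_self, smul_zero, add_zero, ← S.Uadd, add_comm b a] at h2
      have e1 : S.ι (S.U (a + b) f) + z + (a • S.H f + b • S.H (S.U a f))
          = S.ι (S.U (a + b) f) + (z + a • S.H f) + b • S.H (S.U a f) := by abel
      have e2 : S.ι (S.U a f) + (z + a • S.H f) = S.ι (S.U a f) + z + a • S.H f := by abel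
      rw [e1]
      rw [e2] at h2
      refine h2.trans ?_
      have h3 : (0 : ℝ) ≤ 1 + S.C₁ * b ^ 2 := by positivity
      refine (mul_le_mul_of_nonneg_left h1 h3).trans ?_
      rw [← mul_assoc]
      apply mul_le_mul_of_nonneg_right _ (norm_nonneg _)
      rw [haa, ← hA]
      have h4 : A * b ^ 2 ≤ A * e4 := mul_le_mul_of_nonneg_left hbb hA0
      have h5 : 0 ≤ A * b ^ 2 := by positivity
      have h6 : 0 ≤ A * e4 := by positivity
      have h7 : A * e4 ≤ A := by nlinarith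
      have h8 : q * e4 = 3 * (A * e4) + A * (A * e4) + 2 * S.C * e4 := by rw [hq]; ring
      have h9 : 0 ≤ 2 * S.C * e4 := by positivity
      rw [h8]
      nlinarith
    -- return
    obtain ⟨ξ, hξ⟩ := hall (S.U (a + b) f) f (by rw [S.Uiso, hf]) hf (1 + e4) (by linarith)
    have hprod : (1 + e4) * (1 + q * e4) ≤ 1 + D * e4 := by
      have : D * e4 = e4 + 2 * (q * e4) := by rw [hD]; ring
      rw [this]
      have h1 : e4 * (q * e4) ≤ 1 * (q * e4) := mul_le_mul_of_nonneg_right he1 (by positivity)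
      nlinarith
    have hDe : D * e4 ≤ 1 := by
      rw [he4, mul_one_div, div_le_one (by positivity)]
      calc D ≤ K := hK
        _ = K ^ 1 := (pow_one K).symm
        _ ≤ K ^ 4 := pow_le_pow_right₀ hK1 (by norm_num)
    have hshift : ∀ c : W, S.π c = 0 →
        (∀ z, S.π z = 0 → ‖S.ι (S.U (a + b) f) + z + c‖ ≤ (1 + q * e4) * ‖S.ι f + z‖) →
        ‖c + S.H ξ‖ ≤ 9 * (D * e4) := by
      intro c hc hcr
      refine S.bounded_shift f hf (c + S.H ξ) (by rw [map_add, hc, S.hH, add_zero]) (D * e4)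
        (by positivity) hDe ?_
      intro z hz
      have h1 := hξ (z + c) (by rw [map_add, hz, hc, add_zero])
      have h2 := hcr z hz
      have e1 : S.ι f + z + (c + S.H ξ) = S.ι f + (z + c) + S.H ξ := by abel
      have e2 : S.ι (S.U (a + b) f) + (z + c) = S.ι (S.U (a + b) f) + z + c := by abel
      rw [e1]
      rw [e2] at h1
      refine h1.trans ?_
      refine (mul_le_mul_of_nonneg_left h2 (by linarith)).trans ?_
      rw [← mul_assoc]
      exact mul_le_mul_of_nonneg_right hprod (norm_nonneg _)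
    have hcA := hshift (a • S.H f) (by rw [map_smul, S.hH, smul_zero]) relA
    have hcB := hshift (a • S.H f + b • S.H (S.U a f))
      (by rw [map_add, map_smul, map_smul, S.hH, S.hH, smul_zero, smul_zero, add_zero]) relB
    have hdiff : ‖b • S.H (S.U a f)‖ ≤ 18 * (D * e4) := by
      have e : b • S.H (S.U a f) = (a • S.H f + b • S.H (S.U a f) + S.H ξ)
          - (a • S.H f + S.H ξ) := by abel
      rw [e]
      refine (norm_sub_le _ _).trans ?_
      linarith
    rw [norm_smul, Real.norm_eq_abs, abs_of_pos hb0] at hdiff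
    have h1 : ‖S.H (S.U a f)‖ ≤ 18 * D / K := by
      have h2 : K ^ 3 * (b * ‖S.H (S.U a f)‖) ≤ K ^ 3 * (18 * (D * e4)) :=
        mul_le_mul_of_nonneg_left hdiff (by positivity)
      have e1 : K ^ 3 * (b * ‖S.H (S.U a f)‖) = ‖S.H (S.U a f)‖ := by
        rw [hb]; field_simp
      have e2 : K ^ 3 * (18 * (D * e4)) = 18 * D / K := by rw [he4]; field_simp
      rw [e1, e2] at h2
      exact h2
    have h2 : ‖S.H f‖ ≤ ‖S.H (S.U a f)‖ + ‖S.H (S.U a f - f)‖ := by
      have e : S.H f = S.H (S.U a f) - S.H (S.U a f - f) := by rw [← map_sub]; congr 1; abel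
      calc ‖S.H f‖ = ‖S.H (S.U a f) - S.H (S.U a f - f)‖ := by rw [← e]
        _ ≤ _ := norm_sub_le _ _
    have h3 : ‖S.H (S.U a f - f)‖ ≤ ‖S.H‖ * (S.C + ‖S.G‖) / K := by
      refine (S.H.le_opNorm _).trans ?_
      have h4 := S.Usub a ha0.le ha1 f
      rw [hf, mul_one] at h4
      have h5 : a ≤ 1 / K := by
        rw [ha]
        apply one_div_le_one_div_of_le hK0
        calc K = K ^ 1 := (pow_one K).symm
          _ ≤ K ^ 2 := pow_le_pow_right₀ hK1 (by norm_num)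
      have h6 : a * (S.C + ‖S.G‖) ≤ 1 / K * (S.C + ‖S.G‖) :=
        mul_le_mul_of_nonneg_right h5 (by positivity)
      calc ‖S.H‖ * ‖S.U a f - f‖ ≤ ‖S.H‖ * (1 / K * (S.C + ‖S.G‖)) :=
            mul_le_mul_of_nonneg_left (h4.trans h6) (norm_nonneg _)
        _ = _ := by ring
    have e : D' / K = 18 * D / K + ‖S.H‖ * (S.C + ‖S.G‖) / K := by rw [hD']; ring
    rw [e]
    linarith
  have hlim : Tendsto (fun K : ℝ => D' / K) atTop (𝓝 0) :=
    tendsto_const_nhds.div_atTop tendsto_id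
  have hle : ‖S.H f‖ ≤ 0 := by
    refine ge_of_tendsto hlim ?_
    filter_upwards [eventually_ge_atTop D] with K hK
    exact main K hK
  exact norm_le_zero_iff.1 hle

end Sys

/-- the chain theorem -/
theorem chain {E W : Type*} [NormedAddCommGroup E] [NormedSpace ℝ E] [CompleteSpace E]
    [NormedAddCommGroup W] [NormedSpace ℝ W] (ι : E →ₗᵢ[ℝ] W) (π : W →L[ℝ] E)
    (hπ : ∀ y, ‖π y‖ ≤ ‖y‖) (hπι : ∀ f, π (ι f) = f) (G : E →L[ℝ] E) (H : E →L[ℝ] W)
    (hH : ∀ f, π (H f) = 0) (C : ℝ) (hC : 0 ≤ C)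
    (hG : ∀ (f : E) (a : ℝ), ‖f + a • G f‖ ≤ (1 + C * a ^ 2) * ‖f‖)
    (hstep : ∀ (y : W) (w : E) (a : ℝ), 0 ≤ a → a ≤ 1 → ‖w‖ ≤ ‖π y‖ →
      ‖y + a • (ι (w - π y + G (π y)) + H (π y))‖ ≤ (1 + C * a ^ 2) * ‖y‖)
    (hdim : ∀ f : E, ∃ g : E, g ∉ Submodule.span ℝ {f})
    (f g : E) (hf : ‖f‖ = 1) (hg : ‖g‖ = 1) (z : W) (hz : π z = 0) : ‖ι g + z‖ ≤ ‖ι f + z‖ := by
  obtain ⟨U, C₀, hC₀, U0, Uadd, Uiso, Uapp⟩ := exists_group G C hC hG
  let S : Sys E W :=
    { ι := ι, π := π, G := G, H := H, U := U, C := C + C₀, hC := by positivity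
      hπ := hπ, hπι := hπι, hH := hH
      hG := fun f a => (hG f a).trans (by
        apply mul_le_mul_of_nonneg_right _ (norm_nonneg _)
        nlinarith [sq_nonneg a])
      U0 := U0, Uadd := Uadd, Uiso := Uiso
      Uapp := fun a ha0 ha1 f => (Uapp a ha0 ha1 f).trans (by
        apply mul_le_mul_of_nonneg_right _ (norm_nonneg _)
        nlinarith [sq_nonneg a])
      hstep := fun y w a ha0 ha1 hw => (hstep y w a ha0 ha1 hw).trans (by
        apply mul_le_mul_of_nonneg_right _ (norm_nonneg _)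
        nlinarith [sq_nonneg a]) }
  have hall : ∀ f g : E, ‖f‖ = 1 → ‖g‖ = 1 → ∀ κ : ℝ, 1 < κ → S.Rel κ f g :=
    fun f g hf hg κ hκ => S.all_pairs hdim f g hf hg κ hκ
  have hH0 : ∀ ξ : E, S.H ξ = 0 := by
    intro ξ
    by_cases h0 : ξ = 0
    · rw [h0, map_zero]
    · have hn : 0 < ‖ξ‖ := norm_pos_iff.2 h0
      have h1 := S.H_zero hall (‖ξ‖⁻¹ • ξ) (by
        rw [norm_smul, norm_inv, norm_norm, inv_mul_cancel₀ hn.ne'])
      rw [map_smul] at h1
      exact (smul_eq_zero.1 h1).resolve_left (inv_ne_zero hn.ne')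
  have hκ : ∀ κ : ℝ, 1 < κ → ‖ι g + z‖ ≤ κ * ‖ι f + z‖ := by
    intro κ hκ
    obtain ⟨ξ, hξ⟩ := hall f g hf hg κ hκ
    have h1 := hξ z hz
    rw [hH0, add_zero] at h1
    exact h1
  have hlim : Tendsto (fun κ : ℝ => κ * ‖ι f + z‖) (𝓝[>] 1) (𝓝 (1 * ‖ι f + z‖)) :=
    (tendsto_id.mono_left nhdsWithin_le_nhds).mul_const _
  rw [one_mul] at hlim
  refine ge_of_tendsto hlim ?_
  filter_upwards [self_mem_nhdsWithin] with κ hκ'
  exact hκ κ hκ'

end Pool.Agent.R284.AS
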