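import Pool.Agent.R284.AS.Op

/-! MP_4f1eb4: the final steps, from the uniqueness of norm-preserving liftings to the Asplund
property (by helper706, after helper284). -/

set_option autoImplicit false
set_option maxSynthPendingDepth 6

namespace Pool.Agent.R284.AS.Fin

open NormedSpace Pool.Agent.R284.AS

variable {𝕜 : Type*} [RCLike 𝕜]

section gen

variable {Q : Type*} [NormedAddCommGroup Q] [NormedSpace 𝕜 Q]

theorem ext_fun {V : Type*} [AddCommGroup V] [Module 𝕜 V] (Λ : V →ₗ[𝕜] Q)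
    (hΛ : Function.Injective Λ) (γ : V →ₗ[𝕜] 𝕜) (C : ℝ) (hC : 0 ≤ C)
    (h : ∀ v, ‖γ v‖ ≤ C * ‖Λ v‖) :
    ∃ Z : StrongDual 𝕜 Q, ‖Z‖ ≤ C ∧ ∀ v, Z (Λ v) = γ v := by
  set e := LinearEquiv.ofInjective Λ hΛ with he
  have hb : ∀ w : LinearMap.range Λ, ‖(γ ∘ₗ e.symm.toLinearMap) w‖ ≤ C * ‖w‖ := by
    intro w
    obtain ⟨v, rfl⟩ := e.surjective w
    have h1 : (γ ∘ₗ e.symm.toLinearMap) (e v) = γ v := by
      change γ (e.symm (e v)) = γ v
      rw [LinearEquiv.symm_apply_apply]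
    rw [h1]
    exact h v
  obtain ⟨Z, hZ1, hZ2⟩ := exists_extension_norm_eq (LinearMap.range Λ)
    ((γ ∘ₗ e.symm.toLinearMap).mkContinuous C hb)
  refine ⟨Z, ?_, fun v => ?_⟩
  · rw [hZ2]
    exact LinearMap.mkContinuous_norm_le _ hC _
  · have h1 := hZ1 (e v)
    have h2 : ((γ ∘ₗ e.symm.toLinearMap).mkContinuous C hb) (e v) = γ v := by
      change γ (e.symm (e v)) = γ v
      rw [LinearEquiv.symm_apply_apply]
    rw [h2] at h1
    exact h1

theorem sep (V : Submodule 𝕜 Q) (hV : IsClosed (V : Set Q)) (x : Q) (hx : x ∉ V) :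
    ∃ ξ : StrongDual 𝕜 Q, ξ x ≠ 0 ∧ ∀ v ∈ V, ξ v = 0 := by
  have hn : ‖V.mkQL x‖ ≠ 0 := by
    intro h
    have h1 := (QuotientAddGroup.norm_mk_eq_zero_iff_mem_closure (S := V.toAddSubgroup)
      (m := x)).1 h
    have h2 : (V.toAddSubgroup : Set Q) = (V : Set Q) := rfl
    rw [h2, hV.closure_eq] at h1
    exact hx h1
  obtain ⟨g, _, hg⟩ := exists_dual_vector 𝕜 (V.mkQL x) hn
  refine ⟨g.comp V.mkQL, ?_, fun v hv => ?_⟩
  · rw [ContinuousLinearMap.comp_apply, hg]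
    exact RCLike.ofReal_ne_zero.2 hn
  · have h1 : V.mkQL v = 0 := by
      rw [Submodule.mkQL_apply, Submodule.mkQ_apply]
      exact (Submodule.Quotient.mk_eq_zero V).2 hv
    rw [ContinuousLinearMap.comp_apply, h1, map_zero]

end gen

variable {X : Type*} [NormedAddCommGroup X] [NormedSpace 𝕜 X]

theorem norm_incl' {E : Type*} [NormedAddCommGroup E] [NormedSpace 𝕜 E] (x : E) :
    ‖inclusionInDoubleDual 𝕜 E x‖ = ‖x‖ := (inclusionInDoubleDualLi 𝕜 (E := E)).norm_map x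

/-- general form of step (U): `J : E →ₗᵢ D(D E)` -/
theorem uniq_gen {E : Type*} [NormedAddCommGroup E] [NormedSpace 𝕜 E]
    (z : StrongDual 𝕜 (StrongDual 𝕜 E)) (f : E) (hf : f ≠ 0)
    (h : ∀ g : E, ‖g‖ = 1 → ‖inclusionInDoubleDual 𝕜 E g + z‖ ≤ 1) : z = 0 := by
  have h1 : ∀ u : StrongDual 𝕜 E, ‖u‖ = 1 → RCLike.re (z u) ≤ 0 := by
    intro u hu
    have h2 : ∀ g : E, RCLike.re (u g) ≤ (1 - RCLike.re (z u)) * ‖g‖ := by
      intro g
      rcases eq_or_ne g 0 with rfl | hg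
      · simp
      have hn : 0 < ‖g‖ := norm_pos_iff.2 hg
      have h3 : ‖((‖g‖⁻¹ : ℝ) : 𝕜) • g‖ = 1 := by
        rw [norm_smul, RCLike.norm_ofReal, abs_of_pos (inv_pos.2 hn), inv_mul_cancel₀ hn.ne']
      have h4 := h _ h3
      have h5 : RCLike.re ((inclusionInDoubleDual 𝕜 E (((‖g‖⁻¹ : ℝ) : 𝕜) • g) + z) u) ≤ 1 := by
        calc _ ≤ ‖(inclusionInDoubleDual 𝕜 E (((‖g‖⁻¹ : ℝ) : 𝕜) • g) + z) u‖ :=
              RCLike.re_le_norm _
          _ ≤ ‖inclusionInDoubleDual 𝕜 E (((‖g‖⁻¹ : ℝ) : 𝕜) • g) + z‖ * ‖u‖ :=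
              ContinuousLinearMap.le_opNorm _ _
          _ ≤ 1 * 1 := by rw [hu]; exact mul_le_mul_of_nonneg_right h4 zero_le_one
          _ = 1 := one_mul 1
      rw [_root_.add_apply, dual_def, map_smul, smul_eq_mul, map_add, RCLike.re_ofReal_mul] at h5
      have h6 : ‖g‖ * (‖g‖⁻¹ * RCLike.re (u g)) ≤ ‖g‖ * (1 - RCLike.re (z u)) :=
        mul_le_mul_of_nonneg_left (by linarith) hn.le
      rw [← mul_assoc, mul_inv_cancel₀ hn.ne', one_mul] at h6
      linarith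
    have h3 : ∀ g : E, ‖u g‖ ≤ (1 - RCLike.re (z u)) * ‖g‖ := by
      intro g
      obtain ⟨a, ha, ha2⟩ := RCLike.exists_norm_eq_mul_self (u g)
      have h4 := h2 (a • g)
      rw [map_smul, smul_eq_mul, ← ha2, RCLike.ofReal_re, norm_smul, ha, one_mul] at h4
      exact h4
    have hpos : 0 < ‖f‖ := norm_pos_iff.2 hf
    have h4 : 0 ≤ 1 - RCLike.re (z u) := by
      by_contra hlt
      push Not at hlt
      have := (norm_nonneg _).trans (h3 f)
      nlinarith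
    have h5 := ContinuousLinearMap.opNorm_le_bound u h4 h3
    rw [hu] at h5
    linarith
  ext u
  rw [_root_.zero_apply]
  rcases eq_or_ne u 0 with rfl | hu
  · rw [map_zero]
  have hn : 0 < ‖u‖ := norm_pos_iff.2 hu
  obtain ⟨a, ha, ha2⟩ := RCLike.exists_norm_eq_mul_self (z u)
  have h2 : ‖(((‖u‖⁻¹ : ℝ) : 𝕜) * a) • u‖ = 1 := by
    rw [norm_smul, norm_mul, ha, mul_one, RCLike.norm_ofReal, abs_of_pos (inv_pos.2 hn),
      inv_mul_cancel₀ hn.ne']
  have h3 := h1 _ h2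
  rw [map_smul, smul_eq_mul, mul_assoc, ← ha2, RCLike.re_ofReal_mul, RCLike.ofReal_re] at h3
  have h4 : ‖z u‖ ≤ 0 := by
    by_contra hlt
    push Not at hlt
    have := mul_pos (inv_pos.2 hn) hlt
    linarith
  exact norm_le_zero_iff.1 h4

theorem uniq (hch : ∀ f g : StrongDual 𝕜 X, ‖f‖ = 1 → ‖g‖ = 1 →
      ∀ z : StrongDual 𝕜 (StrongDual 𝕜 (StrongDual 𝕜 X)),
      (∀ x, z (inclusionInDoubleDual 𝕜 X x) = 0) →
      ‖inclusionInDoubleDual 𝕜 (StrongDual 𝕜 X) g + z‖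
        ≤ ‖inclusionInDoubleDual 𝕜 (StrongDual 𝕜 X) f + z‖)
    (Y : StrongDual 𝕜 (StrongDual 𝕜 (StrongDual 𝕜 X))) (f : StrongDual 𝕜 X)
    (hf : ∀ x, Y (inclusionInDoubleDual 𝕜 X x) = f x) (hY : ‖Y‖ ≤ ‖f‖) :
    Y = inclusionInDoubleDual 𝕜 (StrongDual 𝕜 X) f := by
  rcases eq_or_ne f 0 with rfl | hf0
  · rw [norm_zero] at hY
    rw [map_zero]
    exact norm_le_zero_iff.1 hY
  have hn : 0 < ‖f‖ := norm_pos_iff.2 hf0
  set z : StrongDual 𝕜 (StrongDual 𝕜 (StrongDual 𝕜 X)) :=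
    ((‖f‖⁻¹ : ℝ) : 𝕜) • (Y - inclusionInDoubleDual 𝕜 (StrongDual 𝕜 X) f) with hz
  have hz1 : ∀ x, z (inclusionInDoubleDual 𝕜 X x) = 0 := by
    intro x
    rw [hz, _root_.smul_apply, _root_.sub_apply, hf, dual_def, dual_def, sub_self, smul_zero]
  have h1 : ‖((‖f‖⁻¹ : ℝ) : 𝕜) • f‖ = 1 := by
    rw [norm_smul, RCLike.norm_ofReal, abs_of_pos (inv_pos.2 hn), inv_mul_cancel₀ hn.ne']
  have h2 : inclusionInDoubleDual 𝕜 (StrongDual 𝕜 X) (((‖f‖⁻¹ : ℝ) : 𝕜) • f) + z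
      = ((‖f‖⁻¹ : ℝ) : 𝕜) • Y := by
    rw [hz, map_smul, ← smul_add, add_sub_cancel]
  have h3 : ‖((‖f‖⁻¹ : ℝ) : 𝕜) • Y‖ ≤ 1 := by
    rw [norm_smul, RCLike.norm_ofReal, abs_of_pos (inv_pos.2 hn), inv_mul_le_iff₀ hn, mul_one]
    exact hY
  have h4 : z = 0 := by
    refine uniq_gen z f hf0 fun g hg => ?_
    have h5 := hch _ g h1 hg z hz1
    rw [h2] at h5
    exact h5.trans h3
  rw [hz, smul_eq_zero] at h4
  rcases h4 with h4 | h4
  · exact absurd h4 (RCLike.ofReal_ne_zero.2 (inv_pos.2 hn).ne')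
  · exact sub_eq_zero.1 h4

theorem bidual_le (M : Submodule 𝕜 X) (u : StrongDual 𝕜 (StrongDual 𝕜 M)) :
    ‖u‖ ≤ ‖tr (tr M.subtypeL) u‖ := by
  refine ContinuousLinearMap.opNorm_le_bound _ (norm_nonneg _) fun g => ?_
  obtain ⟨f, hf, hfn⟩ := exists_extension_norm_eq M g
  have h1 : tr M.subtypeL f = g := by
    ext m
    exact hf m
  have h2 : u g = (tr (tr M.subtypeL) u) f := by
    rw [tr_apply_apply, h1]
  rw [h2, ← hfn]
  exact ContinuousLinearMap.le_opNorm _ _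

theorem asplund_of_uniq
    (hU : ∀ (Y : StrongDual 𝕜 (StrongDual 𝕜 (StrongDual 𝕜 X))) (f : StrongDual 𝕜 X),
      (∀ x, Y (inclusionInDoubleDual 𝕜 X x) = f x) → ‖Y‖ ≤ ‖f‖ →
      Y = inclusionInDoubleDual 𝕜 (StrongDual 𝕜 X) f) : Asplund 𝕜 X := by
  intro M _ hsep
  haveI := hsep
  obtain ⟨xs, hxs⟩ := TopologicalSpace.exists_dense_seq M
  choose g hg1 hg2 using fun n => exists_dual_vector'' 𝕜 (xs n)
  set V : Submodule 𝕜 (StrongDual 𝕜 M) :=
    (Submodule.span 𝕜 (Set.range g)).topologicalClosure with hVd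
  have hVc : IsClosed (V : Set (StrongDual 𝕜 M)) := Submodule.isClosed_topologicalClosure _
  have hgV : ∀ n, g n ∈ V := fun n =>
    Submodule.le_topologicalClosure _ (Submodule.subset_span (Set.mem_range_self n))
  have hV : V = ⊤ := by
    by_contra hne
    obtain ⟨x0, hx0⟩ : ∃ x0, x0 ∉ V := by
      by_contra hall
      push Not at hall
      exact hne (Submodule.eq_top_iff'.2 hall)
    obtain ⟨ξ, hξ0, hξV⟩ := sep V hVc x0 hx0
    have hnorm : ∀ (x : M) (a : 𝕜), ‖x‖ ≤ ‖inclusionInDoubleDual 𝕜 M x + a • ξ‖ := by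
      intro x a
      refine le_of_forall_pos_le_add fun ε hε => ?_
      obtain ⟨n, hn⟩ := hxs.exists_dist_lt x (half_pos hε)
      have h1 : (inclusionInDoubleDual 𝕜 M x + a • ξ) (g n) = g n x := by
        rw [_root_.add_apply, _root_.smul_apply, dual_def, hξV _ (hgV n), smul_zero, add_zero]
      have h2 : ‖(inclusionInDoubleDual 𝕜 M x + a • ξ) (g n)‖
          ≤ ‖inclusionInDoubleDual 𝕜 M x + a • ξ‖ := by
        calc _ ≤ ‖inclusionInDoubleDual 𝕜 M x + a • ξ‖ * ‖g n‖ :=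
              ContinuousLinearMap.le_opNorm _ _
          _ ≤ ‖inclusionInDoubleDual 𝕜 M x + a • ξ‖ * 1 :=
              mul_le_mul_of_nonneg_left (hg1 n) (norm_nonneg _)
          _ = _ := mul_one _
      rw [h1] at h2
      have h3 : g n (xs n) = g n x + g n (xs n - x) := by rw [map_sub]; ring
      have h4 : ‖g n (xs n - x)‖ ≤ ‖xs n - x‖ := by
        calc _ ≤ ‖g n‖ * ‖xs n - x‖ := (g n).le_opNorm _
          _ ≤ 1 * ‖xs n - x‖ := mul_le_mul_of_nonneg_right (hg1 n) (norm_nonneg _)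
          _ = _ := one_mul _
      have h5 : ‖xs n‖ ≤ ‖g n x‖ + ‖g n (xs n - x)‖ := by
        have h6 := norm_add_le (g n x) (g n (xs n - x))
        rw [← h3, hg2 n, RCLike.norm_ofReal, abs_of_nonneg (norm_nonneg _)] at h6
        exact h6
      have h6 : ‖xs n - x‖ < ε / 2 := by rw [← dist_eq_norm, dist_comm]; exact hn
      have h7 : ‖x‖ ≤ ‖xs n‖ + ‖xs n - x‖ := by
        have := norm_sub_norm_le x (xs n)
        rw [norm_sub_rev] at this
        linarith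
      linarith
    set Λ : (M × 𝕜) →ₗ[𝕜] StrongDual 𝕜 (StrongDual 𝕜 X) :=
      (tr (tr M.subtypeL)).toLinearMap ∘ₗ
        ((inclusionInDoubleDual 𝕜 M).toLinearMap.coprod (LinearMap.toSpanSingleton 𝕜 _ ξ)) with hΛ
    have hΛa : ∀ v, Λ v = tr (tr M.subtypeL) (inclusionInDoubleDual 𝕜 M v.1 + v.2 • ξ) :=
      fun v => rfl
    have hΛn : ∀ v, ‖v.1‖ ≤ ‖Λ v‖ := fun v => by
      rw [hΛa]
      exact (hnorm v.1 v.2).trans (bidual_le M _)
    have hξne : ξ ≠ 0 := by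
      rintro rfl
      exact hξ0 rfl
    have hinj : Function.Injective Λ := by
      rw [injective_iff_map_eq_zero]
      rintro ⟨x, a⟩ hv
      have h1 := hΛn (x, a)
      rw [hv, norm_zero] at h1
      have hx : x = 0 := norm_le_zero_iff.1 h1
      have h2 : ‖inclusionInDoubleDual 𝕜 M x + a • ξ‖ ≤ 0 := by
        have := bidual_le M (inclusionInDoubleDual 𝕜 M x + a • ξ)
        rw [hΛa] at hv
        rw [hv, norm_zero] at this
        exact this
      have h3 := norm_le_zero_iff.1 h2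
      rw [hx, map_zero, zero_add, smul_eq_zero] at h3
      rcases h3 with h3 | h3
      · rw [hx, h3]; rfl
      · exact absurd h3 hξne
    have hzero : ∀ h : StrongDual 𝕜 M, ξ h = 0 := by
      intro h
      obtain ⟨Z, hZn, hZ⟩ := ext_fun Λ hinj (h.toLinearMap ∘ₗ LinearMap.fst 𝕜 M 𝕜) ‖h‖
        (norm_nonneg _) (fun v => (h.le_opNorm v.1).trans
          (mul_le_mul_of_nonneg_left (hΛn v) (norm_nonneg _)))
      have hf : ∀ m : M, Z (inclusionInDoubleDual 𝕜 X m) = h m := by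
        intro m
        have h1 := hZ (m, 0)
        have h2 : Λ (m, 0) = inclusionInDoubleDual 𝕜 X m := by
          rw [hΛa]
          ext k
          rw [zero_smul, add_zero]
          rfl
        rw [h2] at h1
        exact h1
      have hres : tr M.subtypeL (tr (inclusionInDoubleDual 𝕜 X) Z) = h := by
        ext m
        exact hf m
      have hle : ‖h‖ ≤ ‖tr (inclusionInDoubleDual 𝕜 X) Z‖ := by
        refine ContinuousLinearMap.opNorm_le_bound _ (norm_nonneg _) fun m => ?_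
        have h1 := (tr (inclusionInDoubleDual 𝕜 X) Z).le_opNorm (m : X)
        have h2 : (tr (inclusionInDoubleDual 𝕜 X) Z) (m : X) = h m := hf m
        rw [h2] at h1
        exact h1
      have hZj := hU Z (tr (inclusionInDoubleDual 𝕜 X) Z) (fun x => rfl) (hZn.trans hle)
      have h1 := hZ (0, 1)
      have h2 : (h.toLinearMap ∘ₗ LinearMap.fst 𝕜 M 𝕜) (0, 1) = 0 := map_zero h
      rw [h2, hZj, dual_def, hΛa] at h1
      have h3 : (inclusionInDoubleDual 𝕜 M ((0 : M), (1 : 𝕜)).1 + ((0 : M), (1 : 𝕜)).2 • ξ) = ξ := by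
        rw [map_zero, zero_add, one_smul]
      rw [h3, tr_apply_apply, hres] at h1
      exact h1
    exact hξ0 (hzero x0)
  have hs : TopologicalSpace.IsSeparable (V : Set (StrongDual 𝕜 M)) := by
    have h1 : TopologicalSpace.IsSeparable
        ((Submodule.span 𝕜 (Set.range g) : Submodule 𝕜 (StrongDual 𝕜 M)) :
          Set (StrongDual 𝕜 M)) := (Set.countable_range g).isSeparable.span
    exact h1.closure
  rw [hV, Submodule.top_coe] at hs
  exact TopologicalSpace.isSeparable_univ_iff.1 hs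

theorem asplund_of_small (f : StrongDual 𝕜 X)
    (hf : ∀ g : StrongDual 𝕜 X, g ∈ Submodule.span 𝕜 {f}) : Asplund 𝕜 X := by
  intro M _ _
  have h1 : TopologicalSpace.IsSeparable ((Submodule.span 𝕜 {tr M.subtypeL f} :
      Submodule 𝕜 (StrongDual 𝕜 M)) : Set (StrongDual 𝕜 M)) :=
    (Set.countable_singleton _).isSeparable.span
  have h2 : ((Submodule.span 𝕜 {tr M.subtypeL f} :
      Submodule 𝕜 (StrongDual 𝕜 M)) : Set (StrongDual 𝕜 M)) = Set.univ := by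
    rw [Set.eq_univ_iff_forall]
    intro g
    obtain ⟨g', hg', _⟩ := exists_extension_norm_eq M g
    obtain ⟨a, ha⟩ := Submodule.mem_span_singleton.1 (hf g')
    refine Submodule.mem_span_singleton.2 ⟨a, ?_⟩
    rw [← map_smul, ha]
    ext m
    exact hg' m
  rw [h2] at h1
  exact TopologicalSpace.isSeparable_univ_iff.1 h1

theorem numIndex_bound (hn : 0 < numIndex 𝕜 X) (T : X →L[𝕜] X) :
    numIndex 𝕜 X * ‖T‖ ≤ numRadius 𝕜 X T := by
  rcases eq_or_ne T 0 with rfl | hT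
  · rw [norm_zero, mul_zero]
    exact numRadius_nonneg _
  have hpos : 0 < ‖T‖ := norm_pos_iff.2 hT
  have h1 : ‖((‖T‖⁻¹ : ℝ) : 𝕜) • T‖ = 1 := by
    rw [norm_smul, RCLike.norm_ofReal, abs_of_pos (inv_pos.2 hpos), inv_mul_cancel₀ hpos.ne']
  have hb : BddBelow {r : ℝ | ∃ T : X →L[𝕜] X, ‖T‖ = 1 ∧ r = numRadius 𝕜 X T} := by
    refine ⟨0, ?_⟩
    rintro r ⟨S, _, rfl⟩
    exact numRadius_nonneg _
  have h2 : numIndex 𝕜 X ≤ numRadius 𝕜 X (((‖T‖⁻¹ : ℝ) : 𝕜) • T) :=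
    csInf_le hb ⟨_, h1, rfl⟩
  have h3 : numRadius 𝕜 X (((‖T‖⁻¹ : ℝ) : 𝕜) • T) ≤ ‖T‖⁻¹ * numRadius 𝕜 X T := by
    refine Real.sSup_le ?_ (mul_nonneg (inv_pos.2 hpos).le (numRadius_nonneg _))
    rintro r ⟨x, f, hx, hf, hfx, rfl⟩
    rw [_root_.smul_apply, map_smul, norm_smul, RCLike.norm_ofReal, abs_of_pos (inv_pos.2 hpos)]
    exact mul_le_mul_of_nonneg_left (le_numRadius T hx hf hfx) (inv_pos.2 hpos).le
  have h4 := h2.trans h3
  rw [le_inv_mul_iff₀ hpos] at h4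
  linarith

end Pool.Agent.R284.AS.Fin
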