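import Pool.Agent.R284.AS.MI
import Pool.Agent.R284.AS.Fin

/-! MP_4f1eb4: assembly, with the chain theorem as a hypothesis (by helper706, after helper284). -/

set_option autoImplicit false
set_option maxSynthPendingDepth 6

namespace Pool.Agent.R284.AS

open NormedSpace

variable {𝕜 : Type*} [RCLike 𝕜] {X : Type*} [NormedAddCommGroup X] [NormedSpace 𝕜 X]

/-- The chain theorem for `E = D X`, `W = D (D (D X))` gives the Asplund property. -/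
theorem asplund_of_chain [CompleteSpace X] (hn : 0 < numIndex 𝕜 X) (hM : CompactMIdeal 𝕜 X)
    (hchain : ∀ (G : StrongDual 𝕜 X →L[𝕜] StrongDual 𝕜 X)
      (H : StrongDual 𝕜 X →L[𝕜] StrongDual 𝕜 (StrongDual 𝕜 (StrongDual 𝕜 X))),
      (∀ f, tr (inclusionInDoubleDual 𝕜 X) (H f) = 0) → ∀ C : ℝ, 0 ≤ C →
      (∀ (f : StrongDual 𝕜 X) (a : ℝ), ‖f + (a : 𝕜) • G f‖ ≤ (1 + C * a ^ 2) * ‖f‖) →
      (∀ (y : StrongDual 𝕜 (StrongDual 𝕜 (StrongDual 𝕜 X))) (w : StrongDual 𝕜 X) (a : ℝ),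
        0 ≤ a → a ≤ 1 → ‖w‖ ≤ ‖tr (inclusionInDoubleDual 𝕜 X) y‖ →
        ‖y + (a : 𝕜) • (inclusionInDoubleDual 𝕜 (StrongDual 𝕜 X)
            (w - tr (inclusionInDoubleDual 𝕜 X) y + G (tr (inclusionInDoubleDual 𝕜 X) y))
            + H (tr (inclusionInDoubleDual 𝕜 X) y))‖ ≤ (1 + C * a ^ 2) * ‖y‖) →
      (∀ f : StrongDual 𝕜 X, ∃ g : StrongDual 𝕜 X, g ∉ Submodule.span 𝕜 {f}) →
      ∀ f g : StrongDual 𝕜 X, ‖f‖ = 1 → ‖g‖ = 1 →
      ∀ z : StrongDual 𝕜 (StrongDual 𝕜 (StrongDual 𝕜 X)), tr (inclusionInDoubleDual 𝕜 X) z = 0 →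
      ‖inclusionInDoubleDual 𝕜 (StrongDual 𝕜 X) g + z‖
        ≤ ‖inclusionInDoubleDual 𝕜 (StrongDual 𝕜 X) f + z‖) : Asplund 𝕜 X := by
  by_cases hdim : ∀ f : StrongDual 𝕜 X, ∃ g : StrongDual 𝕜 X, g ∉ Submodule.span 𝕜 {f}
  · obtain ⟨G, H, C, hC, hH, hG, hs⟩ := exists_GH hn (Fin.numIndex_bound hn) hM
    refine Fin.asplund_of_uniq fun Y f hf hY => Fin.uniq (fun f g hf hg z hz => ?_) Y f hf hY
    refine hchain G H hH C hC hG hs hdim f g hf hg z ?_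
    ext x
    exact hz x
  · push Not at hdim
    obtain ⟨f, hf⟩ := hdim
    exact Fin.asplund_of_small f hf

end Pool.Agent.R284.AS
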