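import Mathlib

/-! Definitions for MP_4f1eb4_an (Asplundness when the compact operators form an M-ideal under the
numerical radius norm). -/

set_option autoImplicit false

namespace Pool.Agent.R284.AS

variable (𝕜 : Type*) [RCLike 𝕜] (X : Type*) [NormedAddCommGroup X] [NormedSpace 𝕜 X]

/-- The numerical radius `v(T)`. -/
noncomputable def numRadius (T : X →L[𝕜] X) : ℝ :=
  sSup {r : ℝ | ∃ (x : X) (f : StrongDual 𝕜 X), ‖x‖ = 1 ∧ ‖f‖ = 1 ∧ f x = 1 ∧ r = ‖f (T x)‖}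

/-- The numerical index `n(X)`. -/
noncomputable def numIndex : ℝ :=
  sInf {r : ℝ | ∃ T : X →L[𝕜] X, ‖T‖ = 1 ∧ r = numRadius 𝕜 X T}

/-- The norm on the dual of `(L(X), v)`. -/
noncomputable def dualNorm (φ : StrongDual 𝕜 (X →L[𝕜] X)) : ℝ :=
  sSup {r : ℝ | ∃ T : X →L[𝕜] X, numRadius 𝕜 X T ≤ 1 ∧ r = ‖φ T‖}

/-- `K_v(X)` is an M-ideal in `L_v(X)`: there is a linear projection `P` on the dual of
`L_v(X)` whose kernel is the annihilator of the compact operators, with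
`‖φ‖ = ‖P φ‖ + ‖φ - P φ‖` in the dual norm of `v`. -/
def CompactMIdeal : Prop :=
  ∃ P : StrongDual 𝕜 (X →L[𝕜] X) →ₗ[𝕜] StrongDual 𝕜 (X →L[𝕜] X),
    (∀ φ, P (P φ) = P φ) ∧
    (∀ φ, P φ = 0 ↔ ∀ K : X →L[𝕜] X, IsCompactOperator K → φ K = 0) ∧
    ∀ φ, dualNorm 𝕜 X φ = dualNorm 𝕜 X (P φ) + dualNorm 𝕜 X (φ - P φ)

/-- `X` is an Asplund space: every separable closed subspace has a separable dual. -/
def Asplund : Prop :=
  ∀ M : Submodule 𝕜 X, IsClosed (M : Set X) → TopologicalSpace.SeparableSpace M →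
    TopologicalSpace.SeparableSpace (StrongDual 𝕜 M)

end Pool.Agent.R284.AS
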