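import Pool.Agent.R284.AS.Asm
import Pool.Agent.R284.AS.All

set_option autoImplicit false
set_option maxSynthPendingDepth 6

namespace Pool.Agent.R284.AS

open NormedSpace

lemma rsmul {𝕜 : Type*} [RCLike 𝕜] {Y : Type*} [NormedAddCommGroup Y] [NormedSpace 𝕜 Y]
    (a : ℝ) (f : StrongDual 𝕜 Y) : (a : 𝕜) • f = a • f := by
  ext x
  simp [RCLike.real_smul_eq_coe_mul]

lemma real_span {𝕜 : Type*} [RCLike 𝕜] {Y : Type*} [NormedAddCommGroup Y] [NormedSpace 𝕜 Y]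
    (f g : StrongDual 𝕜 Y) (h : g ∈ Submodule.span ℝ {f}) : g ∈ Submodule.span 𝕜 {f} := by
  rw [Submodule.mem_span_singleton] at h ⊢
  obtain ⟨a, rfl⟩ := h
  exact ⟨(a : 𝕜), rsmul a f⟩

/-- canonical embedding, as a real linear isometry -/
noncomputable def incl (𝕜 : Type*) [RCLike 𝕜] (X : Type*) [NormedAddCommGroup X]
    [NormedSpace 𝕜 X] :
    StrongDual 𝕜 X →ₗᵢ[ℝ] StrongDual 𝕜 (StrongDual 𝕜 (StrongDual 𝕜 X)) where
  toLinearMap := ((inclusionInDoubleDual 𝕜 (StrongDual 𝕜 X)).restrictScalars ℝ).toLinearMap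
  norm_map' := fun f => (inclusionInDoubleDualLi 𝕜 (E := StrongDual 𝕜 X)).norm_map f

lemma incl_apply {𝕜 : Type*} [RCLike 𝕜] {X : Type*} [NormedAddCommGroup X] [NormedSpace 𝕜 X]
    (f : StrongDual 𝕜 X) : incl 𝕜 X f = inclusionInDoubleDual 𝕜 (StrongDual 𝕜 X) f := rfl

lemma norm_tr_incl_le {𝕜 : Type*} [RCLike 𝕜] {X : Type*} [NormedAddCommGroup X]
    [NormedSpace 𝕜 X] (y : StrongDual 𝕜 (StrongDual 𝕜 (StrongDual 𝕜 X))) :
    ‖tr (inclusionInDoubleDual 𝕜 X) y‖ ≤ ‖y‖ := by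
  have h1 := (tr (inclusionInDoubleDual 𝕜 X)).le_opNorm y
  have h2 : ‖tr (inclusionInDoubleDual 𝕜 X)‖ ≤ 1 :=
    (norm_tr_le _).trans (inclusionInDoubleDual_norm_le 𝕜 X)
  exact h1.trans (by nlinarith [norm_nonneg y])

lemma tr_incl {𝕜 : Type*} [RCLike 𝕜] {X : Type*} [NormedAddCommGroup X]
    [NormedSpace 𝕜 X] (f : StrongDual 𝕜 X) :
    tr (inclusionInDoubleDual 𝕜 X) (inclusionInDoubleDual 𝕜 (StrongDual 𝕜 X) f) = f := by
  ext x
  rfl

theorem main {𝕜 : Type*} [RCLike 𝕜] {X : Type*} [NormedAddCommGroup X] [NormedSpace 𝕜 X]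
    [CompleteSpace X] (hn : 0 < numIndex 𝕜 X) (hM : CompactMIdeal 𝕜 X) : Asplund 𝕜 X := by
  refine asplund_of_chain hn hM ?_
  intro G H hH C hC hG hs hdim f g hf hg z hz
  have key := chain (E := StrongDual 𝕜 X) (W := StrongDual 𝕜 (StrongDual 𝕜 (StrongDual 𝕜 X)))
    (ι := incl 𝕜 X) (π := (tr (inclusionInDoubleDual 𝕜 X)).restrictScalars ℝ)
    norm_tr_incl_le tr_incl (G.restrictScalars ℝ) (H.restrictScalars ℝ) hH C hC
    (fun f a => by
      have := hG f a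
      rw [rsmul] at this
      exact this)
    (fun y w a ha0 ha1 hw => by
      have := hs y w a ha0 ha1 hw
      rw [rsmul] at this
      exact this)
    (fun f => by
      obtain ⟨g, hg⟩ := hdim f
      exact ⟨g, fun h => hg (real_span f g h)⟩) f g hf hg z hz
  exact key

end Pool.Agent.R284.AS
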