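import Pool.Agent.R284.AS.Op

/-! MP_4f1eb4: consequences of the M-ideal property (by helper706, after helper284). -/

set_option autoImplicit false
set_option maxSynthPendingDepth 6

namespace Pool.Agent.R284.AS

open NormedSpace

variable {𝕜 : Type*} [RCLike 𝕜]

section gen

variable {E : Type*} [NormedAddCommGroup E] [NormedSpace 𝕜 E]

theorem skew_att (D : StrongDual 𝕜 E →L[𝕜] StrongDual 𝕜 E)
    (hD : ∀ (f : StrongDual 𝕜 E) (u : E), ‖f‖ = 1 → ‖u‖ = 1 → f u = 1 → RCLike.re (D f u) ≤ 0)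
    (a : ℝ) (ha : 0 ≤ a) (f : StrongDual 𝕜 E) (u : E) (hu : ‖u‖ ≤ 1) (hfu : f u = (‖f‖ : 𝕜)) :
    ‖f‖ ≤ ‖f - (a : 𝕜) • D f‖ := by
  rcases eq_or_ne f 0 with rfl | hf
  · simp
  have hn : 0 < ‖f‖ := norm_pos_iff.2 hf
  have hu1 : ‖u‖ = 1 := by
    refine le_antisymm hu ?_
    have h1 := f.le_opNorm u
    rw [hfu, RCLike.norm_ofReal, abs_of_pos hn] at h1
    by_contra h
    push Not at h
    nlinarith
  have h1 : ‖((‖f‖⁻¹ : ℝ) : 𝕜) • f‖ = 1 := by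
    rw [norm_smul, RCLike.norm_ofReal, abs_of_pos (inv_pos.2 hn), inv_mul_cancel₀ hn.ne']
  have h2 : (((‖f‖⁻¹ : ℝ) : 𝕜) • f) u = 1 := by
    rw [_root_.smul_apply, hfu, smul_eq_mul, ← RCLike.ofReal_mul,
      inv_mul_cancel₀ hn.ne', RCLike.ofReal_one]
  have h3 := hD _ u h1 hu1 h2
  rw [map_smul, _root_.smul_apply, smul_eq_mul, RCLike.re_ofReal_mul] at h3
  have h4 : RCLike.re (D f u) ≤ 0 := by
    by_contra h
    push Not at h
    have := mul_pos (inv_pos.2 hn) h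
    linarith
  have h5 : RCLike.re ((f - (a : 𝕜) • D f) u) = ‖f‖ - a * RCLike.re (D f u) := by
    rw [_root_.sub_apply, _root_.smul_apply, smul_eq_mul, map_sub, hfu,
      RCLike.ofReal_re, RCLike.re_ofReal_mul]
  calc ‖f‖ ≤ ‖f‖ - a * RCLike.re (D f u) := by nlinarith
    _ = RCLike.re ((f - (a : 𝕜) • D f) u) := h5.symm
    _ ≤ ‖(f - (a : 𝕜) • D f) u‖ := RCLike.re_le_norm _
    _ ≤ ‖f - (a : 𝕜) • D f‖ * ‖u‖ := ContinuousLinearMap.le_opNorm _ _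
    _ = _ := by rw [hu1, mul_one]

theorem skew_all [CompleteSpace E] (D : StrongDual 𝕜 E →L[𝕜] StrongDual 𝕜 E)
    (hD : ∀ (f : StrongDual 𝕜 E) (u : E), ‖f‖ = 1 → ‖u‖ = 1 → f u = 1 → RCLike.re (D f u) ≤ 0)
    (a : ℝ) (ha : 0 ≤ a) (f : StrongDual 𝕜 E) : ‖f‖ ≤ ‖f - (a : 𝕜) • D f‖ := by
  have hcl : IsClosed {g : StrongDual 𝕜 E | ‖g‖ ≤ ‖g - (a : 𝕜) • D g‖} :=
    isClosed_le continuous_norm (continuous_id.sub (D.continuous.const_smul (a : 𝕜))).norm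
  have hmem : f ∈ closure {g : StrongDual 𝕜 E | ‖g‖ ≤ ‖g - (a : 𝕜) • D g‖} := by
    rw [Metric.mem_closure_iff]
    intro ε hε
    obtain ⟨g, hg, u, hu, hgu⟩ := bp f (ε / 2) (half_pos hε)
    refine ⟨g, skew_att D hD a ha g u hu hgu, ?_⟩
    rw [dist_comm, dist_eq_norm]
    linarith
  rw [hcl.closure_eq] at hmem
  exact hmem

theorem skew_bound [CompleteSpace E] (D : StrongDual 𝕜 E →L[𝕜] StrongDual 𝕜 E)
    (hD : ∀ (f : StrongDual 𝕜 E) (u : E), ‖f‖ = 1 → ‖u‖ = 1 → f u = 1 → RCLike.re (D f u) ≤ 0)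
    (a : ℝ) (ha : 0 ≤ a) (f : StrongDual 𝕜 E) :
    ‖f + (a : 𝕜) • D f‖ ≤ (1 + ‖D‖ ^ 2 * a ^ 2) * ‖f‖ := by
  have h1 := skew_all D hD a ha (f + (a : 𝕜) • D f)
  have h2 : f + (a : 𝕜) • D f - (a : 𝕜) • D (f + (a : 𝕜) • D f)
      = f - ((a : 𝕜) * (a : 𝕜)) • D (D f) := by
    rw [map_add, map_smul, smul_add, smul_smul]
    abel
  rw [h2] at h1
  refine h1.trans ?_
  calc ‖f - ((a : 𝕜) * (a : 𝕜)) • D (D f)‖ ≤ ‖f‖ + ‖((a : 𝕜) * (a : 𝕜)) • D (D f)‖ :=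
        norm_sub_le _ _
    _ ≤ ‖f‖ + a * a * (‖D‖ * (‖D‖ * ‖f‖)) := by
        rw [norm_smul, norm_mul, RCLike.norm_ofReal, abs_of_nonneg ha]
        have h3 : ‖D (D f)‖ ≤ ‖D‖ * (‖D‖ * ‖f‖) :=
          (D.le_opNorm _).trans (mul_le_mul_of_nonneg_left (D.le_opNorm _) (norm_nonneg _))
        have h4 : 0 ≤ a * a := mul_nonneg ha ha
        linarith [mul_le_mul_of_nonneg_left h3 h4]
    _ = _ := by ring

end gen

variable {X : Type*} [NormedAddCommGroup X] [NormedSpace 𝕜 X]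

theorem nr_bdd (T : X →L[𝕜] X) : BddAbove {r : ℝ | ∃ (x : X) (f : StrongDual 𝕜 X),
    ‖x‖ = 1 ∧ ‖f‖ = 1 ∧ f x = 1 ∧ r = ‖f (T x)‖} := by
  refine ⟨‖T‖, ?_⟩
  rintro r ⟨x, f, hx, hf, _, rfl⟩
  calc ‖f (T x)‖ ≤ ‖f‖ * ‖T x‖ := f.le_opNorm _
    _ ≤ ‖f‖ * (‖T‖ * ‖x‖) := mul_le_mul_of_nonneg_left (T.le_opNorm x) (norm_nonneg _)
    _ = ‖T‖ := by rw [hx, hf, one_mul, mul_one]

theorem nr_nonneg (T : X →L[𝕜] X) : 0 ≤ numRadius 𝕜 X T :=
  Real.sSup_nonneg (by rintro r ⟨x, f, _, _, _, rfl⟩; exact norm_nonneg _)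

theorem nr_le_norm (T : X →L[𝕜] X) : numRadius 𝕜 X T ≤ ‖T‖ := by
  refine Real.sSup_le ?_ (norm_nonneg _)
  rintro r ⟨x, f, hx, hf, _, rfl⟩
  calc ‖f (T x)‖ ≤ ‖f‖ * ‖T x‖ := f.le_opNorm _
    _ ≤ ‖f‖ * (‖T‖ * ‖x‖) := mul_le_mul_of_nonneg_left (T.le_opNorm x) (norm_nonneg _)
    _ = ‖T‖ := by rw [hx, hf, one_mul, mul_one]

theorem nr_smul (a : 𝕜) (T : X →L[𝕜] X) :
    numRadius 𝕜 X (a • T) ≤ ‖a‖ * numRadius 𝕜 X T := by
  refine Real.sSup_le ?_ (mul_nonneg (norm_nonneg _) (nr_nonneg _))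
  rintro r ⟨x, f, hx, hf, hfx, rfl⟩
  rw [_root_.smul_apply, map_smul, norm_smul]
  exact mul_le_mul_of_nonneg_left (le_csSup (nr_bdd T) ⟨x, f, hx, hf, hfx, rfl⟩) (norm_nonneg _)

theorem dn_nonneg (φ : StrongDual 𝕜 (X →L[𝕜] X)) : 0 ≤ dualNorm 𝕜 X φ :=
  Real.sSup_nonneg (by rintro r ⟨T, _, rfl⟩; exact norm_nonneg _)

theorem dn_le (φ : StrongDual 𝕜 (X →L[𝕜] X)) (C : ℝ) (hC : 0 ≤ C)
    (h : ∀ T, numRadius 𝕜 X T ≤ 1 → ‖φ T‖ ≤ C) : dualNorm 𝕜 X φ ≤ C := by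
  refine Real.sSup_le ?_ hC
  rintro r ⟨T, hT, rfl⟩
  exact h T hT

theorem dn_le_div {c : ℝ} (hc : 0 < c) (hv : ∀ T : X →L[𝕜] X, c * ‖T‖ ≤ numRadius 𝕜 X T)
    (φ : StrongDual 𝕜 (X →L[𝕜] X)) : dualNorm 𝕜 X φ ≤ ‖φ‖ / c := by
  refine dn_le φ _ (by positivity) fun T hT => ?_
  have h1 : ‖T‖ ≤ 1 / c := by
    rw [le_div_iff₀ hc]
    linarith [hv T]
  calc ‖φ T‖ ≤ ‖φ‖ * ‖T‖ := φ.le_opNorm T
    _ ≤ ‖φ‖ * (1 / c) := mul_le_mul_of_nonneg_left h1 (norm_nonneg _)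
    _ = ‖φ‖ / c := by ring

theorem le_dn {c : ℝ} (hc : 0 < c) (hv : ∀ T : X →L[𝕜] X, c * ‖T‖ ≤ numRadius 𝕜 X T)
    (φ : StrongDual 𝕜 (X →L[𝕜] X)) (T : X →L[𝕜] X) :
    ‖φ T‖ ≤ dualNorm 𝕜 X φ * numRadius 𝕜 X T := by
  have hbdd : BddAbove {r : ℝ | ∃ T : X →L[𝕜] X, numRadius 𝕜 X T ≤ 1 ∧ r = ‖φ T‖} := by
    refine ⟨‖φ‖ / c, ?_⟩
    rintro r ⟨T, hT, rfl⟩
    have h1 : ‖T‖ ≤ 1 / c := by
      rw [le_div_iff₀ hc]
      linarith [hv T]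
    calc ‖φ T‖ ≤ ‖φ‖ * ‖T‖ := φ.le_opNorm T
      _ ≤ ‖φ‖ * (1 / c) := mul_le_mul_of_nonneg_left h1 (norm_nonneg _)
      _ = ‖φ‖ / c := by ring
  rcases (nr_nonneg (𝕜 := 𝕜) T).eq_or_lt with h0 | hpos
  · have h1 : ‖T‖ = 0 := by
      have := hv T
      rw [← h0] at this
      have h2 := norm_nonneg T
      nlinarith
    rw [norm_eq_zero] at h1
    rw [h1, map_zero, norm_zero]
    exact mul_nonneg (dn_nonneg _) (nr_nonneg _)
  · set v := numRadius 𝕜 X T with hvd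
    have h1 : numRadius 𝕜 X (((v⁻¹ : ℝ) : 𝕜) • T) ≤ 1 := by
      refine (nr_smul _ _).trans ?_
      rw [RCLike.norm_ofReal, abs_of_pos (inv_pos.2 hpos), ← hvd, inv_mul_cancel₀ hpos.ne']
    have h2 := le_csSup hbdd ⟨_, h1, rfl⟩
    rw [map_smul, norm_smul, RCLike.norm_ofReal, abs_of_pos (inv_pos.2 hpos),
      inv_mul_le_iff₀ hpos] at h2
    rw [mul_comm]
    exact h2

/-- the functional `T ↦ y (f ∘ T)` -/
noncomputable def psi (f : StrongDual 𝕜 X) (y : StrongDual 𝕜 (StrongDual 𝕜 X)) :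
    StrongDual 𝕜 (X →L[𝕜] X) := y.comp (ContinuousLinearMap.compL 𝕜 X X 𝕜 f)

theorem psi_apply (f : StrongDual 𝕜 X) (y : StrongDual 𝕜 (StrongDual 𝕜 X)) (T : X →L[𝕜] X) :
    psi f y T = y (f.comp T) := rfl

theorem psi_one (f : StrongDual 𝕜 X) (y : StrongDual 𝕜 (StrongDual 𝕜 X)) :
    psi f y 1 = y f := rfl

theorem norm_psi_le (f : StrongDual 𝕜 X) (y : StrongDual 𝕜 (StrongDual 𝕜 X)) :
    ‖psi f y‖ ≤ ‖f‖ * ‖y‖ := by
  refine ContinuousLinearMap.opNorm_le_bound _ (by positivity) fun T => ?_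
  rw [psi_apply]
  calc ‖y (f.comp T)‖ ≤ ‖y‖ * ‖f.comp T‖ := y.le_opNorm _
    _ ≤ ‖y‖ * (‖f‖ * ‖T‖) :=
      mul_le_mul_of_nonneg_left (ContinuousLinearMap.opNorm_comp_le f T) (norm_nonneg _)
    _ = _ := by ring

/-- the bilinear form -/
noncomputable def bil (P : StrongDual 𝕜 (X →L[𝕜] X) →ₗ[𝕜] StrongDual 𝕜 (X →L[𝕜] X)) :
    StrongDual 𝕜 X →ₗ[𝕜] StrongDual 𝕜 (StrongDual 𝕜 X) →ₗ[𝕜] 𝕜 :=
  LinearMap.mk₂ 𝕜 (fun f y => psi f y 1 - P (psi f y) 1)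
    (fun f g y => by
      have : psi (f + g) y = psi f y + psi g y := by
        ext T
        rw [_root_.add_apply, psi_apply, psi_apply, psi_apply,
          ContinuousLinearMap.add_comp, map_add]
      rw [this, map_add, _root_.add_apply, _root_.add_apply]
      ring)
    (fun a f y => by
      have : psi (a • f) y = a • psi f y := by
        ext T
        rw [_root_.smul_apply, psi_apply, psi_apply,
          ContinuousLinearMap.smul_comp, map_smul]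
      rw [this, map_smul, _root_.smul_apply, _root_.smul_apply,
        smul_sub])
    (fun f y z => by
      have : psi f (y + z) = psi f y + psi f z := by
        ext T
        rw [_root_.add_apply, psi_apply, psi_apply, psi_apply,
          _root_.add_apply]
      rw [this, map_add, _root_.add_apply, _root_.add_apply]
      ring)
    (fun a f y => by
      have : psi f (a • y) = a • psi f y := by
        ext T
        rw [_root_.smul_apply, psi_apply, psi_apply,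
          _root_.smul_apply]
      rw [this, map_smul, _root_.smul_apply, _root_.smul_apply,
        smul_sub])

theorem bil_apply (P : StrongDual 𝕜 (X →L[𝕜] X) →ₗ[𝕜] StrongDual 𝕜 (X →L[𝕜] X))
    (f : StrongDual 𝕜 X) (y : StrongDual 𝕜 (StrongDual 𝕜 X)) :
    bil P f y = y f - P (psi f y) 1 := rfl

theorem nr_one_le : numRadius 𝕜 X (1 : X →L[𝕜] X) ≤ 1 :=
  (nr_le_norm _).trans ContinuousLinearMap.norm_id_le

theorem bil_le {c : ℝ} (hc : 0 < c) (hv : ∀ T : X →L[𝕜] X, c * ‖T‖ ≤ numRadius 𝕜 X T)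
    (P : StrongDual 𝕜 (X →L[𝕜] X) →ₗ[𝕜] StrongDual 𝕜 (X →L[𝕜] X))
    (h3 : ∀ φ, dualNorm 𝕜 X φ = dualNorm 𝕜 X (P φ) + dualNorm 𝕜 X (φ - P φ))
    (f : StrongDual 𝕜 X) (y : StrongDual 𝕜 (StrongDual 𝕜 X)) :
    ‖bil P f y‖ ≤ 1 / c * ‖f‖ * ‖y‖ := by
  have h1 : bil P f y = (psi f y - P (psi f y)) 1 := by
    rw [bil_apply, _root_.sub_apply, psi_one]
  rw [h1]
  have h2 := le_dn hc hv (psi f y - P (psi f y)) 1
  have h4 : dualNorm 𝕜 X (psi f y - P (psi f y)) ≤ dualNorm 𝕜 X (psi f y) := by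
    rw [h3 (psi f y)]
    linarith [dn_nonneg (P (psi f y))]
  have h5 := dn_le_div hc hv (psi f y)
  have h6 : ‖psi f y‖ / c ≤ ‖f‖ * ‖y‖ / c := div_le_div_of_nonneg_right (norm_psi_le f y) hc.le
  have h7 : dualNorm 𝕜 X (psi f y - P (psi f y)) * numRadius 𝕜 X 1
      ≤ dualNorm 𝕜 X (psi f y - P (psi f y)) * 1 :=
    mul_le_mul_of_nonneg_left nr_one_le (dn_nonneg _)
  calc _ ≤ _ := h2
    _ ≤ ‖f‖ * ‖y‖ / c := by linarith
    _ = _ := by ring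

/-- the functional `T ↦ Y (T** y)` -/
noncomputable def phi (Y : StrongDual 𝕜 (StrongDual 𝕜 (StrongDual 𝕜 X)))
    (y : StrongDual 𝕜 (StrongDual 𝕜 X)) : StrongDual 𝕜 (X →L[𝕜] X) :=
  Y.comp ((ContinuousLinearMap.compL 𝕜 (StrongDual 𝕜 X) (StrongDual 𝕜 X) 𝕜 y).comp
    (ContinuousLinearMap.compL 𝕜 X X 𝕜).flip)

theorem phi_apply (Y : StrongDual 𝕜 (StrongDual 𝕜 (StrongDual 𝕜 X)))
    (y : StrongDual 𝕜 (StrongDual 𝕜 X)) (T : X →L[𝕜] X) : phi Y y T = Y (tr (tr T) y) := rfl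

theorem key [CompleteSpace X] {c : ℝ} (hc : 0 < c)
    (hv : ∀ T : X →L[𝕜] X, c * ‖T‖ ≤ numRadius 𝕜 X T)
    (P : StrongDual 𝕜 (X →L[𝕜] X) →ₗ[𝕜] StrongDual 𝕜 (X →L[𝕜] X))
    (h1 : ∀ φ, P (P φ) = P φ)
    (h2 : ∀ φ, P φ = 0 ↔ ∀ K : X →L[𝕜] X, IsCompactOperator K → φ K = 0)
    (h3 : ∀ φ, dualNorm 𝕜 X φ = dualNorm 𝕜 X (P φ) + dualNorm 𝕜 X (φ - P φ))
    (Y : StrongDual 𝕜 (StrongDual 𝕜 (StrongDual 𝕜 X))) (y : StrongDual 𝕜 (StrongDual 𝕜 X))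
    (f : StrongDual 𝕜 X) (hY : ‖Y‖ = 1) (hy : ‖y‖ = 1) (hYy : Y y = 1)
    (hf : ∀ x, Y (inclusionInDoubleDual 𝕜 X x) = f x) :
    P (phi Y y) = P (psi f y) ∧ ‖f‖ ≤ dualNorm 𝕜 X (P (phi Y y)) ∧
      dualNorm 𝕜 X (P (phi Y y)) ≤ RCLike.re (P (phi Y y) 1) ∧
      dualNorm 𝕜 X (P (phi Y y)) + dualNorm 𝕜 X (phi Y y - P (phi Y y)) ≤ 1 := by
  have e1 : P (phi Y y) = P (psi f y) := by
    rw [← sub_eq_zero, ← map_sub, h2]
    intro K hK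
    have hz : ∀ x, (Y - inclusionInDoubleDual 𝕜 (StrongDual 𝕜 X) f)
        (inclusionInDoubleDual 𝕜 X x) = 0 := by
      intro x
      rw [_root_.sub_apply, hf, dual_def, dual_def, sub_self]
    exact compact_bidual K hK _ hz y
  have e2 : dualNorm 𝕜 X (phi Y y) ≤ 1 := by
    refine dn_le _ _ zero_le_one fun T hT => ?_
    rw [phi_apply]
    exact (numRadius_bidual T y Y hy hY hYy).trans hT
  have e3 := h3 (phi Y y)
  have e4 : phi Y y 1 = 1 := hYy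
  have e5 : ∀ φ : StrongDual 𝕜 (X →L[𝕜] X), ‖φ 1‖ ≤ dualNorm 𝕜 X φ := by
    intro φ
    have := le_dn hc hv φ 1
    have h4 := mul_le_mul_of_nonneg_left (nr_one_le (𝕜 := 𝕜) (X := X)) (dn_nonneg φ)
    linarith
  have e6 : RCLike.re (P (phi Y y) 1) + RCLike.re ((phi Y y - P (phi Y y)) 1) = 1 := by
    rw [← map_add, ← _root_.add_apply, add_sub_cancel, e4, RCLike.one_re]
  have e7 : RCLike.re ((phi Y y - P (phi Y y)) 1) ≤ dualNorm 𝕜 X (phi Y y - P (phi Y y)) :=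
    (RCLike.re_le_norm _).trans (e5 _)
  refine ⟨e1, ?_, by linarith, by linarith⟩
  -- rank one operators
  have e8 : ∀ (x : X) (g : StrongDual 𝕜 X),
      ‖y g‖ * ‖f x‖ ≤ dualNorm 𝕜 X (P (phi Y y)) * ‖g‖ * ‖x‖ := by
    intro x g
    have hcomp : IsCompactOperator (g.smulRight x : X →L[𝕜] X) :=
      (isCompactOperator_of_locallyCompactSpace_dom g).continuous_comp
        (g := fun a : 𝕜 => a • x) (continuous_id.smul continuous_const)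
    have h4 : (phi Y y - P (phi Y y)) (g.smulRight x) = 0 := by
      refine (h2 _).1 ?_ _ hcomp
      rw [map_sub, h1, sub_self]
    have h5 : P (phi Y y) (g.smulRight x) = y g * f x := by
      rw [_root_.sub_apply, sub_eq_zero] at h4
      rw [← h4, phi_apply]
      have h6 : tr (tr (g.smulRight x)) y = y g • inclusionInDoubleDual 𝕜 X x := by
        ext h
        rw [tr_apply_apply, _root_.smul_apply, dual_def]
        have h7 : tr (g.smulRight x) h = h x • g := by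
          ext w
          rw [tr_apply_apply, _root_.smul_apply, ContinuousLinearMap.smulRight_apply,
            map_smul, smul_eq_mul, smul_eq_mul, mul_comm]
        rw [h7, map_smul, smul_eq_mul, smul_eq_mul, mul_comm]
      rw [h6, map_smul, hf, smul_eq_mul]
    have h6 := le_dn hc hv (P (phi Y y)) (g.smulRight x)
    rw [h5, norm_mul] at h6
    have h7 : numRadius 𝕜 X (g.smulRight x) ≤ ‖g‖ * ‖x‖ := by
      refine (nr_le_norm _).trans ?_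
      rw [ContinuousLinearMap.norm_smulRight_apply]
    calc _ ≤ _ := h6
      _ ≤ dualNorm 𝕜 X (P (phi Y y)) * (‖g‖ * ‖x‖) :=
        mul_le_mul_of_nonneg_left h7 (dn_nonneg _)
      _ = _ := by ring
  refine ContinuousLinearMap.opNorm_le_bound _ (dn_nonneg _) fun x => ?_
  have h4 : ‖(f x) • y‖ ≤ dualNorm 𝕜 X (P (phi Y y)) * ‖x‖ := by
    refine ContinuousLinearMap.opNorm_le_bound _ (mul_nonneg (dn_nonneg _) (norm_nonneg _))
      fun g => ?_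
    rw [_root_.smul_apply, norm_smul, mul_comm]
    calc _ ≤ _ := e8 x g
      _ = _ := by ring
  rw [norm_smul, hy, mul_one] at h4
  exact h4

theorem key_re [CompleteSpace X] {c : ℝ} (hc : 0 < c)
    (hv : ∀ T : X →L[𝕜] X, c * ‖T‖ ≤ numRadius 𝕜 X T)
    (P : StrongDual 𝕜 (X →L[𝕜] X) →ₗ[𝕜] StrongDual 𝕜 (X →L[𝕜] X))
    (h1 : ∀ φ, P (P φ) = P φ)
    (h2 : ∀ φ, P φ = 0 ↔ ∀ K : X →L[𝕜] X, IsCompactOperator K → φ K = 0)
    (h3 : ∀ φ, dualNorm 𝕜 X φ = dualNorm 𝕜 X (P φ) + dualNorm 𝕜 X (φ - P φ))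
    (Y : StrongDual 𝕜 (StrongDual 𝕜 (StrongDual 𝕜 X))) (y : StrongDual 𝕜 (StrongDual 𝕜 X))
    (f : StrongDual 𝕜 X) (hY : ‖Y‖ = 1) (hy : ‖y‖ = 1) (hYy : Y y = 1)
    (hf : ∀ x, Y (inclusionInDoubleDual 𝕜 X x) = f x) :
    ‖f‖ ≤ RCLike.re (y f - bil P f y) := by
  obtain ⟨e1, e2, e3, _⟩ := key hc hv P h1 h2 h3 Y y f hY hy hYy hf
  rw [bil_apply, sub_sub_cancel, ← e1]
  exact e2.trans e3

theorem norm_incl {E : Type*} [NormedAddCommGroup E] [NormedSpace 𝕜 E] (x : E) :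
    ‖inclusionInDoubleDual 𝕜 E x‖ = ‖x‖ := (inclusionInDoubleDualLi 𝕜 (E := E)).norm_map x

theorem key_zero [CompleteSpace X] {c : ℝ} (hc : 0 < c)
    (hv : ∀ T : X →L[𝕜] X, c * ‖T‖ ≤ numRadius 𝕜 X T)
    (P : StrongDual 𝕜 (X →L[𝕜] X) →ₗ[𝕜] StrongDual 𝕜 (X →L[𝕜] X))
    (h1 : ∀ φ, P (P φ) = P φ)
    (h2 : ∀ φ, P φ = 0 ↔ ∀ K : X →L[𝕜] X, IsCompactOperator K → φ K = 0)
    (h3 : ∀ φ, dualNorm 𝕜 X φ = dualNorm 𝕜 X (P φ) + dualNorm 𝕜 X (φ - P φ))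
    (f : StrongDual 𝕜 X) (y : StrongDual 𝕜 (StrongDual 𝕜 X)) (hf : ‖f‖ = 1) (hy : ‖y‖ = 1)
    (hyf : y f = 1) : bil P f y = 0 := by
  obtain ⟨e1, e2, _, e4⟩ := key hc hv P h1 h2 h3 (inclusionInDoubleDual 𝕜 (StrongDual 𝕜 X) f) y f
    (by rw [norm_incl, hf]) hy (by rw [dual_def, hyf]) (fun x => by rw [dual_def, dual_def])
  have e5 : phi (inclusionInDoubleDual 𝕜 (StrongDual 𝕜 X) f) y = psi f y := by
    ext T
    rw [phi_apply, dual_def, tr_apply_apply, psi_apply]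
    rfl
  rw [e5] at e2 e4
  have h6 : bil P f y = (psi f y - P (psi f y)) 1 := by
    rw [bil_apply, _root_.sub_apply, psi_one]
  have h7 : dualNorm 𝕜 X (psi f y - P (psi f y)) ≤ 0 := by linarith
  have h8 : ‖bil P f y‖ ≤ 0 := by
    rw [h6]
    refine (le_dn hc hv _ 1).trans ?_
    exact mul_nonpos_of_nonpos_of_nonneg h7 (nr_nonneg _)
  exact norm_le_zero_iff.1 h8

theorem comp_gen {E W : Type*} [NormedAddCommGroup E] [NormedSpace 𝕜 E] [NormedAddCommGroup W]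
    [NormedSpace 𝕜 W] (A : E →L[𝕜] W) (π : W →L[𝕜] E) :
    ∃ D : W →L[𝕜] W, ∀ z, D z = A (π z) := ⟨A.comp π, fun _ => rfl⟩

theorem exists_GH [CompleteSpace X] {c : ℝ} (hc : 0 < c)
    (hv : ∀ T : X →L[𝕜] X, c * ‖T‖ ≤ numRadius 𝕜 X T) (hM : CompactMIdeal 𝕜 X) :
    ∃ (G : StrongDual 𝕜 X →L[𝕜] StrongDual 𝕜 X)
      (H : StrongDual 𝕜 X →L[𝕜] StrongDual 𝕜 (StrongDual 𝕜 (StrongDual 𝕜 X))) (C : ℝ),
      0 ≤ C ∧ (∀ f, tr (inclusionInDoubleDual 𝕜 X) (H f) = 0) ∧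
      (∀ (f : StrongDual 𝕜 X) (a : ℝ), ‖f + (a : 𝕜) • G f‖ ≤ (1 + C * a ^ 2) * ‖f‖) ∧
      (∀ (y : StrongDual 𝕜 (StrongDual 𝕜 (StrongDual 𝕜 X))) (w : StrongDual 𝕜 X) (a : ℝ),
        0 ≤ a → a ≤ 1 → ‖w‖ ≤ ‖tr (inclusionInDoubleDual 𝕜 X) y‖ →
        ‖y + (a : 𝕜) • (inclusionInDoubleDual 𝕜 (StrongDual 𝕜 X)
            (w - tr (inclusionInDoubleDual 𝕜 X) y + G (tr (inclusionInDoubleDual 𝕜 X) y))
            + H (tr (inclusionInDoubleDual 𝕜 X) y))‖ ≤ (1 + C * a ^ 2) * ‖y‖) := by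
  obtain ⟨P, h1, h2, h3⟩ := hM
  set π : StrongDual 𝕜 (StrongDual 𝕜 (StrongDual 𝕜 X)) →L[𝕜] StrongDual 𝕜 X :=
    tr (inclusionInDoubleDual 𝕜 X) with hπd
  set j := inclusionInDoubleDual 𝕜 (StrongDual 𝕜 X) with hjd
  have hπ : ∀ y, ‖π y‖ ≤ ‖y‖ := by
    intro y
    have h4 : ‖π‖ ≤ 1 := (norm_tr_le _).trans (inclusionInDoubleDual_norm_le 𝕜 X)
    calc ‖π y‖ ≤ ‖π‖ * ‖y‖ := π.le_opNorm y
      _ ≤ 1 * ‖y‖ := mul_le_mul_of_nonneg_right h4 (norm_nonneg _)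
      _ = ‖y‖ := one_mul _
  have hπj : ∀ f, π (j f) = f := by
    intro f
    ext x
    rfl
  set Gh : StrongDual 𝕜 X →L[𝕜] StrongDual 𝕜 (StrongDual 𝕜 (StrongDual 𝕜 X)) :=
    (bil P).mkContinuous₂ (1 / c) (bil_le hc hv P h3) with hGh
  have hGha : ∀ f y, Gh f y = bil P f y := fun f y => rfl
  have hGhn : ∀ f, ‖Gh f‖ ≤ 1 / c * ‖f‖ := by
    intro f
    refine ContinuousLinearMap.opNorm_le_bound _ (by positivity) fun y => ?_
    exact bil_le hc hv P h3 f y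
  set G : StrongDual 𝕜 X →L[𝕜] StrongDual 𝕜 X := π.comp Gh with hG
  have hGz : ∀ (f : StrongDual 𝕜 X) (u : X), ‖f‖ = 1 → ‖u‖ = 1 → f u = 1 → G f u = 0 := by
    intro f u hf hu hfu
    exact key_zero hc hv P h1 h2 h3 f (inclusionInDoubleDual 𝕜 X u) hf
      (by rw [norm_incl, hu]) hfu
  refine ⟨G, Gh - j.comp G, ‖G‖ ^ 2 + (2 + 1 / c) ^ 2, by positivity, ?_, ?_, ?_⟩
  · intro f
    rw [_root_.sub_apply, map_sub, ContinuousLinearMap.comp_apply, hπj]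
    exact sub_self _
  · intro f a
    have hfin : (1 + ‖G‖ ^ 2 * a ^ 2) * ‖f‖ ≤ (1 + (‖G‖ ^ 2 + (2 + 1 / c) ^ 2) * a ^ 2) * ‖f‖ := by
      refine mul_le_mul_of_nonneg_right ?_ (norm_nonneg _)
      have : 0 ≤ (2 + 1 / c) ^ 2 * a ^ 2 := by positivity
      linarith
    refine le_trans ?_ hfin
    rcases le_total 0 a with ha | ha
    · refine skew_bound G (fun f u hf hu hfu => ?_) a ha f
      rw [hGz f u hf hu hfu, RCLike.zero_re]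
    · have h4 := skew_bound (-G) (fun f u hf hu hfu => by
        rw [_root_.neg_apply, _root_.neg_apply, hGz f u hf hu hfu, neg_zero, RCLike.zero_re])
        (-a) (by linarith) f
      rw [norm_neg, neg_sq, _root_.neg_apply, RCLike.ofReal_neg, neg_smul_neg] at h4
      exact h4
  · intro y w a ha _ hw
    obtain ⟨η, hη, hηf⟩ := exists_dual_vector'' 𝕜 (π y)
    set S : StrongDual 𝕜 X →L[𝕜] StrongDual 𝕜 X :=
      η.smulRight (((‖π y‖⁻¹ : ℝ) : 𝕜) • w) with hS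
    have hSa : ∀ u, S u = η u • ((‖π y‖⁻¹ : ℝ) : 𝕜) • w := fun u => rfl
    have hSn : ∀ u, ‖S u‖ ≤ ‖u‖ := by
      intro u
      rw [hSa, norm_smul, norm_smul, RCLike.norm_ofReal, abs_of_nonneg (by positivity)]
      have h4 : ‖π y‖⁻¹ * ‖w‖ ≤ 1 := by
        rcases (norm_nonneg (π y)).eq_or_lt with h0 | hpos
        · rw [← h0, inv_zero, zero_mul]; exact zero_le_one
        · rw [inv_mul_le_iff₀ hpos, mul_one]; exact hw
      calc ‖η u‖ * (‖π y‖⁻¹ * ‖w‖) ≤ (‖η‖ * ‖u‖) * 1 :=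
            mul_le_mul (η.le_opNorm u) h4 (by positivity) (by positivity)
        _ ≤ (1 * ‖u‖) * 1 := by
            refine mul_le_mul_of_nonneg_right ?_ zero_le_one
            exact mul_le_mul_of_nonneg_right hη (norm_nonneg _)
        _ = ‖u‖ := by ring
    have hSf : S (π y) = w := by
      rw [hSa, hηf]
      rcases (norm_nonneg (π y)).eq_or_lt with h0 | hpos
      · rw [← h0] at hw
        have : w = 0 := norm_le_zero_iff.1 hw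
        rw [this, smul_zero, smul_zero]
      · rw [smul_smul, ← RCLike.ofReal_mul, mul_inv_cancel₀ hpos.ne', RCLike.ofReal_one, one_smul]
    set A : StrongDual 𝕜 X →L[𝕜] StrongDual 𝕜 (StrongDual 𝕜 (StrongDual 𝕜 X)) :=
      j.comp (S - ContinuousLinearMap.id 𝕜 (StrongDual 𝕜 X)) + Gh with hA
    have hAa : ∀ f, A f = j (S f) - j f + Gh f := by
      intro f
      rw [← map_sub]
      rfl
    obtain ⟨D, hDD⟩ := comp_gen A π
    have hDa : ∀ z, D z = j (S (π z)) - j (π z) + Gh (π z) := by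
      intro z
      rw [hDD, hAa]
    have hDn : ‖D‖ ≤ 2 + 1 / c := by
      refine ContinuousLinearMap.opNorm_le_bound _ (by positivity) fun z => ?_
      rw [hDa]
      have e1 : ‖j (S (π z))‖ ≤ ‖z‖ := by
        rw [hjd, norm_incl]; exact (hSn _).trans (hπ z)
      have e2 : ‖j (π z)‖ ≤ ‖z‖ := by rw [hjd, norm_incl]; exact hπ z
      have e3 : ‖Gh (π z)‖ ≤ 1 / c * ‖z‖ :=
        (hGhn _).trans (mul_le_mul_of_nonneg_left (hπ z) (by positivity))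
      calc _ ≤ ‖j (S (π z)) - j (π z)‖ + ‖Gh (π z)‖ := norm_add_le _ _
        _ ≤ (‖j (S (π z))‖ + ‖j (π z)‖) + ‖Gh (π z)‖ := by
            have := norm_sub_le (j (S (π z))) (j (π z))
            linarith
        _ ≤ (2 + 1 / c) * ‖z‖ := by linarith
    have hDr : ∀ (z : StrongDual 𝕜 (StrongDual 𝕜 (StrongDual 𝕜 X)))
        (u : StrongDual 𝕜 (StrongDual 𝕜 X)), ‖z‖ = 1 → ‖u‖ = 1 → z u = 1 →
        RCLike.re (D z u) ≤ 0 := by
      intro z u hz hu hzu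
      have e1 := key_re hc hv P h1 h2 h3 z u (π z) hz hu hzu (fun x => rfl)
      have e2 : D z u = u (S (π z)) - (u (π z) - bil P (π z) u) := by
        rw [hDa, _root_.add_apply, _root_.sub_apply, hGha]
        change u (S (π z)) - u (π z) + bil P (π z) u = _
        ring
      rw [e2, map_sub]
      have e3 : RCLike.re (u (S (π z))) ≤ ‖π z‖ := by
        calc RCLike.re (u (S (π z))) ≤ ‖u (S (π z))‖ := RCLike.re_le_norm _
          _ ≤ ‖u‖ * ‖S (π z)‖ := u.le_opNorm _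
          _ ≤ 1 * ‖π z‖ := by rw [hu]; exact mul_le_mul_of_nonneg_left (hSn _) zero_le_one
          _ = ‖π z‖ := one_mul _
      linarith
    have h4 := skew_bound D hDr a ha y
    have h5 : D y = j (w - π y + G (π y)) + (Gh - j.comp G) (π y) := by
      have h6 : (Gh - j.comp G) (π y) = Gh (π y) - j (G (π y)) := rfl
      rw [hDa, hSf, h6, map_add, map_sub]
      abel
    rw [h5] at h4
    refine h4.trans (mul_le_mul_of_nonneg_right ?_ (norm_nonneg _))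
    have h6 : ‖D‖ ^ 2 ≤ (2 + 1 / c) ^ 2 := pow_le_pow_left₀ (norm_nonneg _) hDn 2
    have h7 : ‖D‖ ^ 2 * a ^ 2 ≤ (2 + 1 / c) ^ 2 * a ^ 2 :=
      mul_le_mul_of_nonneg_right h6 (sq_nonneg a)
    have h8 : 0 ≤ ‖G‖ ^ 2 * a ^ 2 := by positivity
    linarith

end Pool.Agent.R284.AS
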