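import Pool.Agent.R284.AS.Defs
import Pool.Agent.Helper902.NABP

/-! Part B1-B3 of MP_4f1eb4_an: adjoints, Lumer's lemma on the bidual, compact operators map the
bidual into the space, Bishop-Phelps over `𝕜`. -/

set_option autoImplicit false
set_option maxSynthPendingDepth 6

open NormedSpace

namespace Pool.Agent.R284.AS

variable {𝕜 : Type*} [RCLike 𝕜]
variable {E F : Type*} [NormedAddCommGroup E] [NormedSpace 𝕜 E] [NormedAddCommGroup F]
  [NormedSpace 𝕜 F]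

/-- The adjoint of an operator. -/
noncomputable def tr (T : E →L[𝕜] F) : StrongDual 𝕜 F →L[𝕜] StrongDual 𝕜 E :=
  (ContinuousLinearMap.compL 𝕜 E F 𝕜).flip T

@[simp] theorem tr_apply (T : E →L[𝕜] F) (f : StrongDual 𝕜 F) : tr T f = f ∘L T := rfl

theorem tr_apply_apply (T : E →L[𝕜] F) (f : StrongDual 𝕜 F) (x : E) : tr T f x = f (T x) := rfl

theorem norm_tr_le (T : E →L[𝕜] F) : ‖tr T‖ ≤ ‖T‖ := by
  refine ContinuousLinearMap.opNorm_le_bound _ (norm_nonneg _) fun f => ?_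
  rw [tr_apply, mul_comm]
  exact ContinuousLinearMap.opNorm_comp_le _ _

/-! ### B1 -/

variable {X : Type*} [NormedAddCommGroup X] [NormedSpace 𝕜 X]

theorem numRadius_bddAbove (T : X →L[𝕜] X) : BddAbove {r : ℝ | ∃ (x : X) (f : StrongDual 𝕜 X),
    ‖x‖ = 1 ∧ ‖f‖ = 1 ∧ f x = 1 ∧ r = ‖f (T x)‖} := by
  refine ⟨‖T‖, ?_⟩
  rintro r ⟨x, f, hx, hf, -, rfl⟩
  calc ‖f (T x)‖ ≤ ‖f‖ * ‖T x‖ := f.le_opNorm _
    _ ≤ ‖f‖ * (‖T‖ * ‖x‖) := by gcongr; exact T.le_opNorm _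
    _ = ‖T‖ := by rw [hx, hf]; ring

theorem numRadius_nonneg (T : X →L[𝕜] X) : 0 ≤ numRadius 𝕜 X T := by
  refine Real.sSup_nonneg ?_
  rintro r ⟨x, f, -, -, -, rfl⟩
  exact norm_nonneg _

theorem numRadius_le_norm (T : X →L[𝕜] X) : numRadius 𝕜 X T ≤ ‖T‖ := by
  refine Real.sSup_le ?_ (norm_nonneg _)
  rintro r ⟨x, f, hx, hf, -, rfl⟩
  calc ‖f (T x)‖ ≤ ‖f‖ * ‖T x‖ := f.le_opNorm _
    _ ≤ ‖f‖ * (‖T‖ * ‖x‖) := by gcongr; exact T.le_opNorm _
    _ = ‖T‖ := by rw [hx, hf]; ring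

theorem le_numRadius (T : X →L[𝕜] X) {x : X} {f : StrongDual 𝕜 X} (hx : ‖x‖ = 1) (hf : ‖f‖ = 1)
    (h : f x = 1) : ‖f (T x)‖ ≤ numRadius 𝕜 X T :=
  le_csSup (numRadius_bddAbove T) ⟨x, f, hx, hf, h, rfl⟩

theorem lumer_aux (T : X →L[𝕜] X) (c : 𝕜) (x : X) :
    (1 - ‖c‖ * numRadius 𝕜 X T) * ‖x‖ ≤ ‖x - c • T x‖ := by
  by_cases hx : ‖x‖ = 0
  · rw [hx, mul_zero]; exact norm_nonneg _
  obtain ⟨f, hf, hfx⟩ := exists_dual_vector 𝕜 x hx
  have hxpos : 0 < ‖x‖ := lt_of_le_of_ne (norm_nonneg _) (Ne.symm hx)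
  have h1 : ‖f (T x)‖ ≤ numRadius 𝕜 X T * ‖x‖ := by
    have hk : ((‖x‖ : ℝ) : 𝕜) ≠ 0 := by exact_mod_cast hx
    have h2 := le_numRadius T (x := ((‖x‖ : ℝ) : 𝕜)⁻¹ • x) (f := f)
      (by rw [norm_smul, norm_inv, RCLike.norm_ofReal, abs_of_pos hxpos, inv_mul_cancel₀ hx]) hf
      (by rw [map_smul, hfx, smul_eq_mul, inv_mul_cancel₀ hk])
    rw [map_smul, map_smul, norm_smul, norm_inv, RCLike.norm_ofReal, abs_of_pos hxpos] at h2
    rwa [inv_mul_le_iff₀ hxpos, mul_comm] at h2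
  have h3 : ‖f (x - c • T x)‖ ≤ ‖x - c • T x‖ := by
    have := f.le_opNorm (x - c • T x)
    rwa [hf, one_mul] at this
  have h4 : ‖x‖ - ‖c‖ * ‖f (T x)‖ ≤ ‖f (x - c • T x)‖ := by
    rw [map_sub, map_smul, hfx, smul_eq_mul]
    have := norm_sub_norm_le ((‖x‖ : ℝ) : 𝕜) (c * f (T x))
    rw [norm_mul, RCLike.norm_ofReal, abs_of_pos hxpos] at this
    exact this
  have h5 : ‖c‖ * ‖f (T x)‖ ≤ ‖c‖ * (numRadius 𝕜 X T * ‖x‖) := by gcongr
  nlinarith

theorem lumer_norm (T : X →L[𝕜] X) (c : 𝕜) (hc : 0 < 1 - ‖c‖ * numRadius 𝕜 X T) :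
    (1 - ‖c‖ * numRadius 𝕜 X T) * ‖(1 : X →L[𝕜] X) + c • T‖ ≤ 1 + ‖c‖ ^ 2 * ‖T‖ ^ 2 := by
  rw [← le_div_iff₀' hc]
  refine ContinuousLinearMap.opNorm_le_bound _ (by positivity) fun x => ?_
  rw [div_mul_eq_mul_div, le_div_iff₀' hc]
  have h1 := lumer_aux T c (x + c • T x)
  have h2 : x + c • T x - c • T (x + c • T x) = x - (c * c) • T (T x) := by
    rw [map_add, map_smul, smul_add, smul_smul]
    abel
  rw [h2] at h1
  have h3 : ‖x - (c * c) • T (T x)‖ ≤ (1 + ‖c‖ ^ 2 * ‖T‖ ^ 2) * ‖x‖ := by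
    calc ‖x - (c * c) • T (T x)‖ ≤ ‖x‖ + ‖(c * c) • T (T x)‖ := norm_sub_le _ _
      _ = ‖x‖ + ‖c‖ ^ 2 * ‖T (T x)‖ := by rw [norm_smul, norm_mul]; ring
      _ ≤ ‖x‖ + ‖c‖ ^ 2 * (‖T‖ * (‖T‖ * ‖x‖)) := by
          gcongr
          exact (T.le_opNorm _).trans (by gcongr; exact T.le_opNorm _)
      _ = _ := by ring
  exact h1.trans h3

/-- Lumer's lemma for the second adjoint. -/
theorem numRadius_bidual (T : X →L[𝕜] X) (y : StrongDual 𝕜 (StrongDual 𝕜 X))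
    (Y : StrongDual 𝕜 (StrongDual 𝕜 (StrongDual 𝕜 X))) (hy : ‖y‖ = 1) (hY : ‖Y‖ = 1)
    (h : Y y = 1) : ‖Y (tr (tr T) y)‖ ≤ numRadius 𝕜 X T := by
  set v := numRadius 𝕜 X T with hv
  have hv0 : 0 ≤ v := numRadius_nonneg T
  set w := Y (tr (tr T) y) with hw
  by_cases hw0 : w = 0
  · rw [hw0, norm_zero]; exact hv0
  have hwn : ((‖w‖ : ℝ) : 𝕜) ≠ 0 := by exact_mod_cast (norm_ne_zero_iff.2 hw0)
  have key : ∀ a : ℝ, 0 < a → 0 < 1 - a * v → (1 - a * v) * (1 + a * ‖w‖) ≤ 1 + a ^ 2 * ‖T‖ ^ 2 := by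
    intro a ha hav
    set c : 𝕜 := (a : 𝕜) * ((starRingEnd 𝕜) w / ((‖w‖ : ℝ) : 𝕜)) with hc
    have hcn : ‖c‖ = a := by
      rw [hc, norm_mul, norm_div, RCLike.norm_conj, RCLike.norm_ofReal, RCLike.norm_ofReal,
        abs_of_pos ha, abs_of_nonneg (norm_nonneg w), div_self (norm_ne_zero_iff.2 hw0), mul_one]
    have hcw : c * w = ((a * ‖w‖ : ℝ) : 𝕜) := by
      rw [hc]
      have h1 : (starRingEnd 𝕜) w * w = ((‖w‖ : ℝ) : 𝕜) ^ 2 := RCLike.conj_mul w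
      field_simp
      rw [mul_comm ((a : 𝕜) * _) w, ← mul_assoc, mul_comm w (a : 𝕜), mul_assoc, mul_comm w, h1]
      push_cast
      ring
    have h1 : y + c • tr (tr T) y = tr (tr ((1 : X →L[𝕜] X) + c • T)) y := by
      ext f
      simp only [ContinuousLinearMap.add_apply, ContinuousLinearMap.smul_apply, tr_apply_apply]
      rw [← map_smul, ← map_add]
      congr 1
      ext x
      simp
    have h2 : ‖Y (y + c • tr (tr T) y)‖ ≤ ‖(1 : X →L[𝕜] X) + c • T‖ := by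
      have h3 := Y.le_opNorm (y + c • tr (tr T) y)
      rw [hY, one_mul] at h3
      refine h3.trans ?_
      rw [h1]
      have h4 := (tr (tr ((1 : X →L[𝕜] X) + c • T))).le_opNorm y
      rw [hy, mul_one] at h4
      exact h4.trans ((norm_tr_le _).trans (norm_tr_le _))
    have h3 : Y (y + c • tr (tr T) y) = ((1 + a * ‖w‖ : ℝ) : 𝕜) := by
      rw [map_add, map_smul, h, smul_eq_mul, ← hw, hcw]
      push_cast
      ring
    rw [h3, RCLike.norm_ofReal, abs_of_nonneg (by positivity)] at h2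
    have h4 := lumer_norm T c (by rw [hcn]; exact hav)
    rw [hcn] at h4
    exact (mul_le_mul_of_nonneg_left h2 hav.le).trans h4
  refine le_of_forall_pos_le_add fun ε hε => ?_
  set K : ℝ := ‖T‖ ^ 2 + v * ‖w‖ with hK
  have hK0 : 0 ≤ K := by positivity
  set a : ℝ := min (ε / (K + 1)) (1 / (v + 1)) / 2 with ha
  have ha0 : 0 < a := by positivity
  have ha1 : a ≤ ε / (K + 1) := by
    have : min (ε / (K + 1)) (1 / (v + 1)) ≤ ε / (K + 1) := min_le_left _ _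
    have h0 : 0 ≤ ε / (K + 1) := by positivity
    rw [ha]; linarith
  have ha2 : a ≤ 1 / (v + 1) / 2 := by
    rw [ha]
    have := min_le_right (ε / (K + 1)) (1 / (v + 1))
    linarith
  have hav : 0 < 1 - a * v := by
    have h1 : a * v ≤ 1 / (v + 1) / 2 * v := by gcongr
    have h2 : 1 / (v + 1) / 2 * v < 1 := by
      rw [div_div, one_div_mul_eq_div, div_lt_one (by positivity)]
      linarith
    linarith
  have h1 := key a ha0 hav
  have h2 : a * K ≤ ε := by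
    have h3 : a * K ≤ ε / (K + 1) * K := by gcongr
    have h4 : ε / (K + 1) * K ≤ ε := by
      rw [div_mul_eq_mul_div, div_le_iff₀ (by positivity)]
      nlinarith
    linarith
  have h3 : a * ‖w‖ ≤ a * (v + a * K) := by
    rw [hK]; nlinarith
  have h4 := le_of_mul_le_mul_left h3 ha0
  linarith

/-! ### B2 -/

/-- The second adjoint of a compact operator maps the bidual into the space (tested against the
functionals vanishing on the space). -/
theorem compact_bidual (K : X →L[𝕜] X) (hK : IsCompactOperator K)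
    (z : StrongDual 𝕜 (StrongDual 𝕜 (StrongDual 𝕜 X)))
    (hz : ∀ x : X, z (inclusionInDoubleDual 𝕜 X x) = 0) (y : StrongDual 𝕜 (StrongDual 𝕜 X)) :
    z (tr (tr K) y) = 0 := by
  have key : ∀ ε : ℝ, 0 < ε → ‖z (tr (tr K) y)‖ ≤ ‖z‖ * (ε * ‖y‖) := by
    intro ε hε
    have htb : TotallyBounded (K '' Metric.closedBall 0 1) :=
      (IsCompactOperator.isCompact_closure_image_closedBall (f := (K : X →ₗ[𝕜] X)) hK
        1).totallyBounded.subset subset_closure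
    obtain ⟨t, ht, hcov⟩ := Metric.totallyBounded_iff.1 htb ε hε
    haveI : Finite t := ht
    set L : t → (StrongDual 𝕜 X →ₗ[𝕜] 𝕜) := fun c =>
      (inclusionInDoubleDual 𝕜 X (c : X) : StrongDual 𝕜 X →L[𝕜] 𝕜).toLinearMap with hL
    set V : Submodule 𝕜 (StrongDual 𝕜 X) := ⨅ c, LinearMap.ker (L c) with hV
    set u := tr (tr K) y with hu
    have hVf : ∀ f ∈ V, ‖u f‖ ≤ ε * ‖y‖ * ‖f‖ := by
      intro f hf
      have hfc : ∀ c ∈ t, f c = 0 := by
        intro c hc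
        have := (Submodule.mem_iInf _).1 hf ⟨c, hc⟩
        simpa [hL] using this
      have h1 : ‖f ∘L K‖ ≤ ε * ‖f‖ := by
        refine ContinuousLinearMap.opNorm_le_bound _ (by positivity) fun x => ?_
        by_cases hx : x = 0
        · simp [hx]
        have hxn : ‖x‖ ≠ 0 := norm_ne_zero_iff.2 hx
        have hxpos : 0 < ‖x‖ := lt_of_le_of_ne (norm_nonneg _) (Ne.symm hxn)
        have hk : ((‖x‖ : ℝ) : 𝕜) ≠ 0 := by exact_mod_cast hxn
        have hx1 : ((‖x‖ : ℝ) : 𝕜)⁻¹ • x ∈ Metric.closedBall (0 : X) 1 := by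
          rw [mem_closedBall_zero_iff, norm_smul, norm_inv, RCLike.norm_ofReal,
            abs_of_pos hxpos, inv_mul_cancel₀ hxn]
        obtain ⟨c, hc, hcx⟩ := Set.mem_iUnion₂.1 (hcov ⟨_, hx1, rfl⟩)
        rw [Metric.mem_ball, dist_eq_norm] at hcx
        have h2 : ‖f (K (((‖x‖ : ℝ) : 𝕜)⁻¹ • x))‖ ≤ ‖f‖ * ε := by
          have h3 : f (K (((‖x‖ : ℝ) : 𝕜)⁻¹ • x)) = f (K (((‖x‖ : ℝ) : 𝕜)⁻¹ • x) - c) := by
            rw [map_sub, hfc c hc, sub_zero]
          rw [h3]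
          exact (f.le_opNorm _).trans (by gcongr)
        rw [map_smul, map_smul, norm_smul, norm_inv, RCLike.norm_ofReal, abs_of_pos hxpos,
          inv_mul_le_iff₀ hxpos] at h2
        calc ‖(f ∘L K) x‖ = ‖f (K x)‖ := rfl
          _ ≤ ‖x‖ * (‖f‖ * ε) := h2
          _ = ε * ‖f‖ * ‖x‖ := by ring
      calc ‖u f‖ = ‖y (f ∘L K)‖ := rfl
        _ ≤ ‖y‖ * ‖f ∘L K‖ := y.le_opNorm _
        _ ≤ ‖y‖ * (ε * ‖f‖) := by gcongr
        _ = _ := by ring
    obtain ⟨u', hu', hnu'⟩ := exists_extension_norm_eq V (u.comp V.subtypeL)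
    have hn : ‖u'‖ ≤ ε * ‖y‖ := by
      rw [hnu']
      refine ContinuousLinearMap.opNorm_le_bound _ (by positivity) fun f => ?_
      exact hVf f.1 f.2
    have hker : (⨅ c, LinearMap.ker (L c)) ≤ LinearMap.ker (u - u').toLinearMap := by
      intro f hf
      rw [LinearMap.mem_ker]
      have h1 := hu' ⟨f, hf⟩
      change u f - u' f = 0
      rw [h1]
      simp
    have hspan := mem_span_of_iInf_ker_le_ker hker
    haveI := Fintype.ofFinite t
    obtain ⟨a, ha⟩ := (Submodule.mem_span_range_iff_exists_fun 𝕜).1 hspan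
    have h1 : u - u' = ∑ c, a c • inclusionInDoubleDual 𝕜 X (c : X) := by
      ext f
      have := congrArg (fun g : StrongDual 𝕜 X →ₗ[𝕜] 𝕜 => g f) ha
      simp only [LinearMap.sum_apply, LinearMap.smul_apply] at this
      rw [ContinuousLinearMap.sum_apply]
      simp only [ContinuousLinearMap.smul_apply]
      exact this.symm
    have h2 : z (u - u') = 0 := by
      rw [h1, map_sum]
      refine Finset.sum_eq_zero fun c _ => ?_
      rw [map_smul, hz, smul_zero]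
    have h3 : z u = z u' := by
      rw [map_sub] at h2
      exact sub_eq_zero.1 h2
    rw [h3]
    exact (z.le_opNorm _).trans (by gcongr)
  have h0 : ‖z (tr (tr K) y)‖ ≤ 0 := by
    refine le_of_forall_pos_le_add fun δ hδ => ?_
    have h1 := key (δ / (‖z‖ * ‖y‖ + 1)) (by positivity)
    have h2 : ‖z‖ * (δ / (‖z‖ * ‖y‖ + 1) * ‖y‖) ≤ δ := by
      rw [div_mul_eq_mul_div, ← mul_div_assoc, div_le_iff₀ (by positivity)]
      nlinarith
    linarith
  exact norm_le_zero_iff.1 h0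

/-! ### B3 -/

/-- Bishop-Phelps over `𝕜`. -/
theorem bp [CompleteSpace E] (f : StrongDual 𝕜 E) (ε : ℝ) (hε : 0 < ε) :
    ∃ g : StrongDual 𝕜 E, ‖g - f‖ ≤ ε ∧ ∃ y : E, ‖y‖ ≤ 1 ∧ g y = ((‖g‖ : ℝ) : 𝕜) := by
  letI : NormedSpace ℝ E := NormedSpace.restrictScalars ℝ 𝕜 E
  haveI : IsScalarTower ℝ 𝕜 E := inferInstance
  set fr : E →L[ℝ] ℝ := RCLike.reCLM.comp (f.restrictScalars ℝ) with hfr
  obtain ⟨Φ, hΦ, y, hy, hΦy⟩ := Pool.Agent.Helper902.NA.bishop_phelps fr ε hε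
  have hf : (StrongDual.extendRCLike fr : StrongDual 𝕜 E) = f := by
    ext x
    apply RCLike.ext <;> simp [hfr, StrongDual.extendRCLike_apply]
  refine ⟨StrongDual.extendRCLike Φ, ?_, y, hy, ?_⟩
  · have h1 : (StrongDual.extendRCLike Φ : StrongDual 𝕜 E) - f =
        StrongDual.extendRCLike (Φ - fr) := by
      rw [← hf]
      exact ((StrongDual.extendRCLikeₗ (𝕜 := 𝕜) (F := E)).map_sub Φ fr).symm
    rw [h1, StrongDual.norm_extendRCLike]
    exact hΦ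
  · rw [StrongDual.norm_extendRCLike]
    set w : 𝕜 := (StrongDual.extendRCLike Φ : StrongDual 𝕜 E) y with hw
    have h1 : RCLike.re w = ‖Φ‖ := by rw [hw, StrongDual.re_extendRCLike_apply, hΦy]
    have h2 : ‖w‖ ≤ ‖Φ‖ := by
      have := (StrongDual.extendRCLike Φ : StrongDual 𝕜 E).le_opNorm y
      rw [StrongDual.norm_extendRCLike] at this
      exact this.trans (mul_le_of_le_one_right (norm_nonneg _) hy)
    have h3 : RCLike.im w = 0 := by
      have h4 := RCLike.norm_sq_eq_def (z := w)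
      have h5 : ‖w‖ ^ 2 ≤ ‖Φ‖ ^ 2 := by gcongr
      rw [h4, h1] at h5
      have h6 : RCLike.im w * RCLike.im w ≤ 0 := by nlinarith
      nlinarith [mul_self_nonneg (RCLike.im w)]
    apply RCLike.ext
    · rw [h1, RCLike.ofReal_re]
    · rw [h3, RCLike.ofReal_im]

end Pool.Agent.R284.AS
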