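import Pool.Agent.R284.AS.Fin2

/-! Short definitions for the statement of MP_4f1eb4_an. -/

set_option autoImplicit false

namespace Pool.Agent.R284.AS.Stmt

variable (𝕜 : Type*) [RCLike 𝕜] (X : Type*) [NormedAddCommGroup X] [NormedSpace 𝕜 X]

/-- `L(X)`, the bounded linear operators on `X`, with the operator norm. -/
def Op : Type _ := X →L[𝕜] X

noncomputable instance : NormedAddCommGroup (Op 𝕜 X) :=
  ContinuousLinearMap.toNormedAddCommGroup (𝕜 := 𝕜) (𝕜₂ := 𝕜) (E := X) (F := X)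
    (σ₁₂ := RingHom.id 𝕜)

noncomputable instance : NormedSpace 𝕜 (Op 𝕜 X) :=
  ContinuousLinearMap.toNormedSpace (𝕜 := 𝕜) (𝕜₂ := 𝕜) (E := X) (F := X) (σ₁₂ := RingHom.id 𝕜)

/-- The dual space of `L(X)`: the bounded linear functionals on `L(X)`. -/
def OpDual : Type _ := StrongDual 𝕜 (Op 𝕜 X)

noncomputable instance : AddCommGroup (OpDual 𝕜 X) :=
  ContinuousLinearMap.addCommGroup (R := 𝕜) (R₂ := 𝕜) (M := Op 𝕜 X) (M₂ := 𝕜)
    (σ₁₂ := RingHom.id 𝕜)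

noncomputable instance : Module 𝕜 (OpDual 𝕜 X) :=
  ContinuousLinearMap.module (R := 𝕜) (S₃ := 𝕜) (R₃ := 𝕜) (M := Op 𝕜 X) (M₃ := 𝕜)

variable {𝕜 X}

/-- `φ(T)`. -/
noncomputable def ev (φ : OpDual 𝕜 X) (T : X →L[𝕜] X) : 𝕜 := (show StrongDual 𝕜 (Op 𝕜 X) from φ) T

/-- The numerical radius `v(T)`. -/
noncomputable def numRadius (T : X →L[𝕜] X) : ℝ :=
  sSup {r : ℝ | ∃ (x : X) (f : StrongDual 𝕜 X), ‖x‖ = 1 ∧ ‖f‖ = 1 ∧ f x = 1 ∧ r = ‖f (T x)‖}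

variable (𝕜 X)

/-- The numerical index `n(X)`. -/
noncomputable def numIndex : ℝ := sInf {r : ℝ | ∃ T : X →L[𝕜] X, ‖T‖ = 1 ∧ r = numRadius T}

variable {𝕜 X}

/-- The norm on the dual of `(L(X), v)`. -/
noncomputable def dualNorm (φ : OpDual 𝕜 X) : ℝ :=
  sSup {r : ℝ | ∃ T : X →L[𝕜] X, numRadius T ≤ 1 ∧ r = ‖ev φ T‖}

/-- `φ` vanishes on the compact operators. -/
def Annihilates (φ : OpDual 𝕜 X) : Prop := ∀ K : X →L[𝕜] X, IsCompactOperator K → ev φ K = 0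

variable (𝕜 X)

/-- `P` is a projection (`P² = P`) with `‖φ‖ = ‖P φ‖ + ‖φ - P φ‖` in the dual norm of `v`. -/
def IsLProjection (P : OpDual 𝕜 X → OpDual 𝕜 X) : Prop :=
  (∀ φ, P (P φ) = P φ) ∧ ∀ φ, dualNorm φ = dualNorm (P φ) + dualNorm (φ - P φ)

/-- `K_v(X)` is an M-ideal in `L_v(X)`: there is a linear projection `P` on the dual of
`L_v(X)` whose kernel is the annihilator of the compact operators, with
`‖φ‖ = ‖P φ‖ + ‖φ - P φ‖` in the dual norm of `v`. -/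
def CompactMIdeal : Prop :=
  ∃ P : OpDual 𝕜 X →ₗ[𝕜] OpDual 𝕜 X,
    IsLProjection 𝕜 X P ∧ ∀ φ, P φ = 0 ↔ Annihilates φ

/-- `X` is an Asplund space: every separable closed subspace has a separable dual. -/
def Asplund : Prop :=
  ∀ M : Submodule 𝕜 X, IsClosed (M : Set X) → TopologicalSpace.SeparableSpace M →
    TopologicalSpace.SeparableSpace (StrongDual 𝕜 M)

lemma conv (h : CompactMIdeal 𝕜 X) : AS.CompactMIdeal 𝕜 X := by
  obtain ⟨P, ⟨h1, h2⟩, h3⟩ := h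
  exact ⟨P, h1, h3, h2⟩

theorem main (hn : 0 < numIndex 𝕜 X) [CompleteSpace X] (hM : CompactMIdeal 𝕜 X) : Asplund 𝕜 X :=
  AS.main hn (conv 𝕜 X hM)

end Pool.Agent.R284.AS.Stmt
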